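import Pool.Agent.helper12.RS.CMD
import Pool.Agent.helper63.RG.MaxP

/-!
# Maximum principle in the corner: the base and the middle nodes
-/

namespace Pool.Agent.helper12.RS

open Complex Set Metric
open Pool.Agent.helper63.NF
open Pool.Agent.helper63.RG (lt_of_frontier pos_of_frontier)

noncomputable section

variable {t : Tb} {e κ θ δ Y s1 R : ℝ} {n : ℕ}

private theorem mm_half {z : ℂ} (h : 0 < z.re) : (z ^ 2) ^ ((1 / 2 : ℝ) : ℂ) = z := by
  have hz : z ≠ 0 := by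
    intro h0
    rw [h0] at h
    simp at h
  have h1 : log (z ^ 2) = 2 * log z := by
    have ha := abs_lt.1 (abs_arg_lt_pi_div_two_iff.2 (Or.inl h))
    rw [sq, Complex.log_mul hz hz]
    · ring
    · constructor <;> linarith [ha.1, ha.2]
  rw [cpow_def_of_ne_zero (pow_ne_zero 2 hz), h1]
  have h2 : 2 * log z * ((1 / 2 : ℝ) : ℂ) = log z := by push_cast; ring
  rw [h2, exp_log hz]

private theorem mm_hpow (z : ℂ) : (z ^ ((1 / 2 : ℝ) : ℂ)) ^ 2 = z := by
  rw [← cpow_nat_mul]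
  push_cast
  rw [show (2 : ℂ) * (1 / 2) = 1 by ring, cpow_one]

private theorem mm_hre {z : ℂ} (hz : z ∈ slitPlane) : 0 < (z ^ ((1 / 2 : ℝ) : ℂ)).re := by
  have h0 := slitPlane_ne_zero hz
  rw [cpow_def_of_ne_zero h0, Complex.exp_re]
  apply mul_pos (Real.exp_pos _)
  apply Real.cos_pos_of_mem_Ioo
  have h1 : (log z * ((1 / 2 : ℝ) : ℂ)).im = arg z * (1 / 2) := by
    rw [Complex.im_mul_ofReal, Complex.log_im]
  have h2 := mem_slitPlane_iff_arg.1 hz
  have h3 := neg_pi_lt_arg z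
  have h4 := lt_of_le_of_ne (arg_le_pi z) h2.1
  rw [h1]
  constructor <;> linarith

/-- uniqueness of the next state -/
theorem nx_eq {T x T' : ℂ} (h : StepP t e κ δ Y n T x T') : T' = nx t e κ n x T := by
  unfold nx
  rw [h.S, mm_half h.re]
  ring

/-! ### sizes -/

private theorem mm_size (H : CH t e κ δ s1 R) : 0 < Real.sinh κ ∧ Real.sinh κ ≤ 63 / 500 ∧
    e * Real.sinh κ ≤ 63 / 125 ∧ 1 ≤ Real.cosh κ ∧ Real.cosh κ ≤ 126 / 125 ∧
    Real.cosh κ ^ 2 = Real.sinh κ ^ 2 + 1 := by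
  have he := H.he
  have hκ := H.hκ
  have hb := H.hb
  have hK0 : 0 < Real.sinh κ := Real.sinh_pos_iff.2 hκ
  have hκ8 : κ ≤ 1 / 8 := by nlinarith
  have hc := Real.cosh_sq κ
  have h1 := Real.cosh_le_exp_half_sq κ
  have hc1 := Real.one_le_cosh κ
  have h2 : Real.cosh κ ^ 2 ≤ Real.exp (κ ^ 2) := by
    calc Real.cosh κ ^ 2 ≤ Real.exp (κ ^ 2 / 2) ^ 2 := pow_le_pow_left₀ (by linarith) h1 2
      _ = Real.exp (κ ^ 2) := by rw [← Real.exp_nat_mul]; congr 1; push_cast; ring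
  have hk2 : κ ^ 2 ≤ 1 / 64 := by nlinarith
  have h3 := (abs_le.1 (Real.abs_exp_sub_one_sub_id_le (x := κ ^ 2) (by
    rw [abs_of_nonneg (by positivity)]; linarith))).2
  have h4 : Real.sinh κ ^ 2 ≤ (126 / 125 * κ) ^ 2 := by
    nlinarith [sq_nonneg κ, mul_nonneg (sq_nonneg κ) (sub_nonneg.2 hk2)]
  have h5 : Real.sinh κ ≤ 126 / 125 * κ :=
    (pow_le_pow_iff_left₀ hK0.le (by positivity) (by norm_num)).1 h4
  have h6 : Real.sinh κ ≤ 63 / 500 := by linarith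
  refine ⟨hK0, h6, ?_, hc1, ?_, hc⟩
  · calc e * Real.sinh κ ≤ e * (126 / 125 * κ) := mul_le_mul_of_nonneg_left h5 (by linarith)
      _ = 126 / 125 * (e * κ) := by ring
      _ ≤ 126 / 125 * (1 / 2) := by linarith
      _ = _ := by norm_num
  · nlinarith

private theorem cl_CR {T : ℂ} (hT : T ∈ closure (CR e κ s1 R)) :
    ‖T‖ ≤ s1 / e ∧ ‖(Real.sinh κ : ℂ) - T‖ ≤ R * ‖(Real.sinh κ : ℂ) + T‖ := by
  have h1 : IsClosed {T : ℂ | ‖T‖ ≤ s1 / e ∧
      ‖(Real.sinh κ : ℂ) - T‖ ≤ R * ‖(Real.sinh κ : ℂ) + T‖} := by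
    apply IsClosed.inter
    · exact isClosed_le continuous_norm continuous_const
    · exact isClosed_le (continuous_const.sub continuous_id).norm
        (continuous_const.mul (continuous_const.add continuous_id).norm)
  have h2 : CR e κ s1 R ⊆ {T : ℂ | ‖T‖ ≤ s1 / e ∧
      ‖(Real.sinh κ : ℂ) - T‖ ≤ R * ‖(Real.sinh κ : ℂ) + T‖} := fun T h => ⟨h.1.le, h.2.le⟩
  exact closure_minimal h2 h1 hT

private theorem bd_CR : Bornology.IsBounded (CR e κ s1 R) := by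
  apply (isBounded_ball (x := (0 : ℂ)) (r := s1 / e)).subset
  intro T hT
  rw [mem_ball_zero_iff]
  exact hT.1

private theorem dc {U : Set ℂ} {f : ℂ → ℂ} (h : ∀ T ∈ closure U, DifferentiableAt ℂ f T) :
    DiffContOnCl ℂ f U :=
  DifferentiableOn.diffContOnCl fun T hT => (h T hT).differentiableWithinAt

/-- a point of size at most `1/(2e)` -/
private theorem pt_facts (H : CH t e κ δ s1 R) {T : ℂ} (hT : e * ‖T‖ ≤ 1 / 2) (n : ℕ) :
    7 / 8 ≤ ((Real.cosh κ : ℂ) + T).re ∧ (Real.cosh κ : ℂ) + T ≠ 0 ∧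
    ((1 / e : ℝ) : ℂ) + t.c n * T ≠ 0 ∧ podom t.pol (t.de e) (Tb.yT e κ T) := by
  obtain ⟨hK0, hK1, heK, hc1, hc2, hcs⟩ := mm_size H
  have he := H.he
  have he0 : 0 < e := by linarith
  have hn := norm_nonneg T
  have hT8 : ‖T‖ ≤ 1 / 8 := by nlinarith
  have hre := (abs_le.1 (Complex.abs_re_le_norm T)).1
  have h1 : 7 / 8 ≤ ((Real.cosh κ : ℂ) + T).re := by
    rw [add_re, ofReal_re]
    linarith
  have h2 : (Real.cosh κ : ℂ) + T ≠ 0 := by
    intro h
    rw [h] at h1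
    norm_num at h1
  refine ⟨h1, h2, ?_, ?_⟩
  · obtain ⟨c, hc0, hc1', hc⟩ := H.c n
    intro h
    have h3 : ((1 / e : ℝ) : ℂ) = -(t.c n * T) := by linear_combination h
    have h4 : 1 / e = ‖t.c n * T‖ := by
      rw [← norm_neg, ← h3, Complex.norm_real, Real.norm_of_nonneg (by positivity)]
    have h5 : ‖t.c n * T‖ ≤ 1 * ‖T‖ := by
      rw [norm_mul, hc, Complex.norm_real, Real.norm_of_nonneg hc0]
      exact mul_le_mul_of_nonneg_right hc1' hn
    have h6 : 1 ≤ e * ‖T‖ := by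
      have : e * (1 / e) ≤ e * ‖T‖ := mul_le_mul_of_nonneg_left (by linarith) he0.le
      rwa [mul_one_div_cancel he0.ne'] at this
    linarith
  · apply H.pol
    have hu : ‖Tb.uT κ T‖ ≤ 8 / 7 := by
      unfold Tb.uT
      rw [norm_inv]
      rw [inv_le_comm₀ (norm_pos_iff.2 h2) (by norm_num)]
      have := Complex.re_le_norm ((Real.cosh κ : ℂ) + T)
      norm_num at this ⊢
      linarith
    have h3 : e * ‖(Real.cosh κ : ℂ) - 1 + T‖ ≤ 8 / 15 := by
      have h4 : ‖(Real.cosh κ : ℂ) - 1 + T‖ ≤ (Real.cosh κ - 1) + ‖T‖ := by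
        refine (norm_add_le _ _).trans ?_
        have : ((Real.cosh κ : ℂ) - 1) = ((Real.cosh κ - 1 : ℝ) : ℂ) := by push_cast; rfl
        rw [this, Complex.norm_real, Real.norm_of_nonneg (by linarith)]
      have h5 : Real.cosh κ - 1 ≤ Real.sinh κ ^ 2 / 2 := by nlinarith
      have h6 : e * (Real.cosh κ - 1) ≤ 1 / 30 := by
        calc e * (Real.cosh κ - 1) ≤ e * (Real.sinh κ ^ 2 / 2) :=
              mul_le_mul_of_nonneg_left h5 he0.le
          _ = (e * Real.sinh κ) * Real.sinh κ / 2 := by ring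
          _ ≤ (63 / 125) * (63 / 500) / 2 := by gcongr
          _ ≤ _ := by norm_num
      have h7 := mul_le_mul_of_nonneg_left h4 he0.le
      rw [mul_add] at h7
      linarith
    unfold Tb.yT Tb.YT
    rw [norm_mul, norm_mul, norm_mul, Complex.norm_real, Real.norm_of_nonneg he0.le]
    have h8 : ‖Tb.uT κ T + 1‖ ≤ 15 / 7 := by
      refine (norm_add_le _ _).trans ?_
      rw [norm_one]
      linarith
    calc e * (‖(Real.cosh κ : ℂ) - 1 + T‖ * ‖Tb.uT κ T‖ * ‖Tb.uT κ T + 1‖) =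
          (e * ‖(Real.cosh κ : ℂ) - 1 + T‖) * ‖Tb.uT κ T‖ * ‖Tb.uT κ T + 1‖ := by ring
      _ ≤ (8 / 15) * (8 / 7) * (15 / 7) := by gcongr
      _ ≤ 2 := by norm_num

/-! ### derivatives -/

private theorem uT1 {T : ℂ} (h : (Real.cosh κ : ℂ) + T ≠ 0) : DifferentiableAt ℂ (Tb.uT κ) T := by
  unfold Tb.uT
  exact (differentiableAt_id.const_add _).inv h

private theorem yT1 {T : ℂ} (h : (Real.cosh κ : ℂ) + T ≠ 0) : DifferentiableAt ℂ (Tb.yT e κ) T := by
  unfold Tb.yT Tb.YT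
  exact (((differentiableAt_id.const_add _).mul (uT1 h)).mul ((uT1 h).add_const _)).const_mul _

private theorem vT1 {T : ℂ} (h : (Real.cosh κ : ℂ) + T ≠ 0) : DifferentiableAt ℂ (Tb.vT e κ) T := by
  unfold Tb.vT
  exact ((differentiableAt_id.sub_const _).mul ((uT1 h).mul
    (((uT1 h).const_add _).const_mul _))).const_mul _

private theorem lT1 {T : ℂ} (h : (Real.cosh κ : ℂ) + T ≠ 0)
    (hp : podom t.pol (t.de e) (Tb.yT e κ T)) : DifferentiableAt ℂ (t.lT e κ) T := by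
  unfold Tb.lT
  have h2 : DifferentiableAt ℂ (fun T => HP t.pol t.H (Tb.yT e κ T) (t.de e) (t.db e κ)) T :=
    DifferentiableAt.comp (g := fun w => HP t.pol t.H w (t.de e) (t.db e κ)) T
      (HP_diff hp) (yT1 h)
  exact ((vT1 h).mul (h2.const_add _)).const_add _

private theorem rT1 {T : ℂ} (h : ((1 / e : ℝ) : ℂ) + t.c n * T ≠ 0) :
    DifferentiableAt ℂ (t.rT e κ n) T := by
  unfold Tb.rT
  exact ((differentiableAt_id.add_const _).const_mul _).div
    ((differentiableAt_id.const_mul (t.c n)).const_add _) h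

private theorem MT1 {T : ℂ} (h : (Real.cosh κ : ℂ) + T ≠ 0) :
    DifferentiableAt ℂ (t.MT e κ n) T := by
  unfold Tb.MT
  exact DifferentiableAt.comp (g := fun w => P3 (t.M n) w (t.de e) (t.db e κ)) T
    ((P3_diff (t.M n) (t.de e) (t.db e κ)).differentiableAt) (yT1 h)

private theorem lc1 {l : ℂ → ℂ} {T : ℂ} (hl : DifferentiableAt ℂ l T)
    (h1 : 0 < (1 + exp (-(l T))).re) : DifferentiableAt ℂ (fun T => lc (l T)) T := by
  unfold lc
  exact (hl.neg.cexp.const_add 1).clog (Or.inl h1)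

private theorem Sn1 {y l χ : ℂ → ℂ} {T : ℂ} (hy : DifferentiableAt ℂ y T)
    (hl : DifferentiableAt ℂ l T) (hχ : DifferentiableAt ℂ χ T)
    (h1 : 0 < (1 + exp (-(l T))).re) (h2 : 0 < (1 - χ T).re)
    (h3 : 0 < (1 + exp (-(l T)) * χ T).re) :
    DifferentiableAt ℂ (fun T => Sn e κ (y T) (l T) (χ T)) T := by
  have a2 := lc1 hl h1
  have a3 : DifferentiableAt ℂ (fun T => lG (l T) (χ T)) T := by
    unfold lG
    exact (((hχ.const_sub 1).clog (Or.inl h2)).sub hl).sub a2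
  have a4 : DifferentiableAt ℂ (fun T => lF (l T) (χ T)) T := by
    unfold lF
    exact (((hl.neg.cexp.mul hχ).const_add 1).clog (Or.inl h3)).sub a2
  unfold Sn
  have a5 := ((((a3.const_add ((LA e κ : ℝ) : ℂ)).const_mul 2).neg.div_const (e : ℂ))).cexp
  have a6 := (((a3.const_add (2 * ((LA e κ : ℝ) : ℂ))).add a4).neg.div_const (e : ℂ)).cexp
  have a7 := (hy.div_const (e : ℂ)).mul (((a4.sub a3).div_const (e : ℂ))).cexp
  exact (((a5.add a6).const_mul ((Hh κ : ℂ) ^ 2)).const_add 1).add a7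

/-! ### the next state is small -/

/-- the next state at a point with the step facts -/
private theorem step_small (H : CH t e κ δ s1 R) {T x T' : ℂ} (hT1 : ‖T‖ ≤ s1 / e)
    (hT2 : ‖(Real.sinh κ : ℂ) - T‖ ≤ R * ‖(Real.sinh κ : ℂ) + T‖)
    (h : StepP t e κ δ Y n T x T') : e * ‖T'‖ ≤ 19 / 50 ∧ 0 < T'.re := by
  obtain ⟨hK0, hK1, heK, hc1, hc2, hcs⟩ := mm_size H
  have he := H.he
  have he0 : 0 < e := by linarith
  obtain ⟨K, hK⟩ : ∃ K, K = Real.sinh κ := ⟨_, rfl⟩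
  obtain ⟨c, hc⟩ : ∃ c, c = Real.cosh κ := ⟨_, rfl⟩
  have hn := norm_nonneg T
  have heT : e * ‖T‖ ≤ 1 / 8 := by
    have h1 : e * ‖T‖ ≤ e * (s1 / e) := mul_le_mul_of_nonneg_left hT1 he0.le
    rw [mul_div_cancel₀ _ he0.ne'] at h1
    linarith [H.s8]
  have hT32 : ‖T‖ ≤ 1 / 32 := by nlinarith
  have hne := h.ne
  have hdisp := h.disp
  have hd1 := H.d1
  have hd2 := H.d2
  have hkk : kk κ = (c - K) ^ 2 := by
    unfold kk
    rw [hc, hK, Real.cosh_sub_sinh, ← Real.exp_nat_mul]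
    congr 1
    push_cast
    ring
  rw [← hK] at hK0 hK1 heK hT2 hne hd1 hcs
  rw [← hc] at hc1 hc2 hcs
  have hcK : (c : ℂ) ^ 2 = (K : ℂ) ^ 2 + 1 := by exact_mod_cast hcs
  -- the point `Ts`
  obtain ⟨Q, hQ⟩ : ∃ Q, Q = (c : ℂ) + T := ⟨_, rfl⟩
  have hQre : 31 / 32 ≤ Q.re := by
    have := (abs_le.1 (Complex.abs_re_le_norm T)).1
    rw [hQ, add_re, ofReal_re]
    linarith
  have hQn : 31 / 32 ≤ ‖Q‖ := hQre.trans (Complex.re_le_norm Q)
  have hQ0 : Q ≠ 0 := by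
    intro h0
    rw [h0, norm_zero] at hQn
    norm_num at hQn
  have hTK : (K : ℂ) + T ≠ 0 := by
    intro h0
    have h1 : T = -(K : ℂ) := by linear_combination h0
    rw [h0, norm_zero, mul_zero, h1, sub_neg_eq_add, ← two_mul, norm_mul, Complex.norm_ofNat,
      Complex.norm_real, Real.norm_of_nonneg hK0.le] at hT2
    linarith
  obtain ⟨Ts, hTs⟩ : ∃ Ts, Ts = (c : ℂ) - Q⁻¹ := ⟨_, rfl⟩
  have hQQ : Q⁻¹ * Q = 1 := inv_mul_cancel₀ hQ0
  have hB : ((K : ℂ) + Ts) * Q = ((c : ℂ) + K) * ((K : ℂ) + T) := by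
    rw [hTs]
    have h1 : ((K : ℂ) + ((c : ℂ) - Q⁻¹)) * Q = ((K : ℂ) + c) * Q - Q⁻¹ * Q := by ring
    rw [h1, hQQ, hQ]
    linear_combination hcK
  have hB' : ((K : ℂ) - Ts) * Q = ((c : ℂ) - K) * ((K : ℂ) - T) := by
    rw [hTs]
    have h1 : ((K : ℂ) - ((c : ℂ) - Q⁻¹)) * Q = ((K : ℂ) - c) * Q + Q⁻¹ * Q := by ring
    rw [h1, hQQ, hQ]
    linear_combination -hcK
  have hcK0 : (c : ℂ) + K ≠ 0 := by
    have : c + K ≠ 0 := by positivity
    exact_mod_cast this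
  have hB0 : (K : ℂ) + Ts ≠ 0 := by
    intro h0
    rw [h0, zero_mul] at hB
    rcases mul_eq_zero.1 hB.symm with h1 | h1
    · exact hcK0 h1
    · exact hTK h1
  have homs : omT κ Ts = (kk κ : ℂ) * omT κ T := by
    unfold omT
    rw [← hK, hkk, ← mul_div_mul_right _ _ hQ0, hB, hB', ← mul_div_assoc,
      div_eq_div_iff (mul_ne_zero hcK0 hTK) hTK]
    push_cast
    have h1 : ((c : ℂ) - K) * ((c : ℂ) + K) = 1 := by linear_combination hcK
    linear_combination (-((c : ℂ) - K) * ((K : ℂ) - T) * ((K : ℂ) + T)) * h1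
  have hA0 : (K : ℂ) + T' ≠ 0 := by rwa [add_comm]
  have hdiff : 2 * K * ‖Ts - T'‖ ≤ 2 * K * (‖(K : ℂ) + T'‖ * ‖(K : ℂ) + Ts‖) := by
    have h1 : omT κ T' - (kk κ : ℂ) * omT κ T =
        (2 * K * (Ts - T')) / (((K : ℂ) + T') * ((K : ℂ) + Ts)) := by
      rw [← homs]
      unfold omT
      rw [← hK]
      field_simp
      ring
    have h2 : ‖(2 * (K : ℂ) * (Ts - T'))‖ = 2 * K * ‖Ts - T'‖ := by
      rw [norm_mul, norm_mul, Complex.norm_ofNat, Complex.norm_real, Real.norm_of_nonneg hK0.le]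
    rw [h1, norm_div, norm_mul ((K : ℂ) + T'), div_le_iff₀ (by positivity), h2] at hdisp
    refine hdisp.trans ?_
    exact mul_le_mul_of_nonneg_right hd1 (by positivity)
  have hdiff' : ‖Ts - T'‖ ≤ ‖(K : ℂ) + T'‖ * ‖(K : ℂ) + Ts‖ :=
    le_of_mul_le_mul_left hdiff (by positivity)
  -- sizes
  have hKT : e * ‖(K : ℂ) + T‖ ≤ 63 / 125 + 1 / 8 := by
    have h1 : ‖(K : ℂ) + T‖ ≤ K + ‖T‖ := by
      refine (norm_add_le _ _).trans ?_
      rw [Complex.norm_real, Real.norm_of_nonneg hK0.le]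
    have h2 := mul_le_mul_of_nonneg_left h1 he0.le
    rw [mul_add] at h2
    linarith
  have hBn : ‖(K : ℂ) + Ts‖ * ‖Q‖ = (c + K) * ‖(K : ℂ) + T‖ := by
    rw [← norm_mul, hB, norm_mul]
    congr 1
    rw [← ofReal_add, Complex.norm_real, Real.norm_of_nonneg (by positivity)]
  have hB19 : ‖(K : ℂ) + Ts‖ ≤ 19 / 100 := by
    have h1 : e * (‖(K : ℂ) + Ts‖ * ‖Q‖) ≤ 567 / 500 * (629 / 1000) := by
      rw [hBn]
      calc e * ((c + K) * ‖(K : ℂ) + T‖) = (c + K) * (e * ‖(K : ℂ) + T‖) := by ring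
        _ ≤ 567 / 500 * (629 / 1000) := by
            apply mul_le_mul (by linarith) (by linarith) (by positivity) (by norm_num)
    have h2 : ‖(K : ℂ) + Ts‖ * (31 / 32) ≤ ‖(K : ℂ) + Ts‖ * ‖Q‖ :=
      mul_le_mul_of_nonneg_left hQn (norm_nonneg _)
    have h3 : 4 * (‖(K : ℂ) + Ts‖ * (31 / 32)) ≤ e * (‖(K : ℂ) + Ts‖ * ‖Q‖) := by
      apply mul_le_mul he h2 (by positivity) he0.le
    linarith
  have hTsn : e * ‖Ts‖ ≤ 1 / 5 := by
    have h1 : Ts * Q = (K : ℂ) ^ 2 + c * T := by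
      rw [hTs, sub_mul, hQQ, hQ]
      linear_combination hcK
    have h2 : ‖Ts‖ * ‖Q‖ ≤ K ^ 2 + c * ‖T‖ := by
      rw [← norm_mul, h1]
      refine (norm_add_le _ _).trans ?_
      rw [norm_pow, norm_mul, Complex.norm_real, Complex.norm_real, Real.norm_of_nonneg hK0.le,
        Real.norm_of_nonneg (by linarith)]
    have h3 : e * (‖Ts‖ * ‖Q‖) ≤ 63 / 125 * (63 / 500) + 126 / 125 * (1 / 8) := by
      have h4 := mul_le_mul_of_nonneg_left h2 he0.le
      have h5 : e * (K ^ 2 + c * ‖T‖) = (e * K) * K + c * (e * ‖T‖) := by ring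
      have h6 : (e * K) * K ≤ 63 / 125 * (63 / 500) :=
        mul_le_mul heK hK1 hK0.le (by norm_num)
      have h7 : c * (e * ‖T‖) ≤ 126 / 125 * (1 / 8) :=
        mul_le_mul hc2 heT (by positivity) (by norm_num)
      linarith
    have h4 : ‖Ts‖ * (31 / 32) ≤ ‖Ts‖ * ‖Q‖ := mul_le_mul_of_nonneg_left hQn (norm_nonneg _)
    have h5 : e * (‖Ts‖ * (31 / 32)) ≤ e * (‖Ts‖ * ‖Q‖) := mul_le_mul_of_nonneg_left h4 he0.le
    have h6 : e * (‖Ts‖ * (31 / 32)) = e * ‖Ts‖ * (31 / 32) := by ring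
    rw [h6] at h5
    linarith
  have hn' := norm_nonneg T'
  constructor
  · have h1 : ‖T'‖ ≤ ‖Ts‖ + ‖Ts - T'‖ := by
      have := norm_sub_le Ts (Ts - T')
      rwa [sub_sub_cancel] at this
    have h2 : ‖(K : ℂ) + T'‖ ≤ K + ‖T'‖ := by
      refine (norm_add_le _ _).trans ?_
      rw [Complex.norm_real, Real.norm_of_nonneg hK0.le]
    have h3 : ‖Ts - T'‖ ≤ (K + ‖T'‖) * (19 / 100) :=
      hdiff'.trans (mul_le_mul h2 hB19 (norm_nonneg _) (by positivity))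
    have h4 : e * ‖T'‖ ≤ e * (‖Ts‖ + (K + ‖T'‖) * (19 / 100)) :=
      mul_le_mul_of_nonneg_left (by linarith) he0.le
    have h5 : e * (‖Ts‖ + (K + ‖T'‖) * (19 / 100)) =
      e * ‖Ts‖ + (e * K + e * ‖T'‖) * (19 / 100) := by ring
    linarith
  · have h1 : ‖omT κ T‖ ≤ R := by
      unfold omT
      rw [← hK, norm_div, div_le_iff₀ (norm_pos_iff.2 hTK)]
      exact hT2
    have hk0 : 0 ≤ kk κ := (kk_pos κ).le
    have h2 : ‖omT κ T'‖ < 1 := by
      have h3 : ‖omT κ T'‖ ≤ ‖omT κ T' - (kk κ : ℂ) * omT κ T‖ + ‖(kk κ : ℂ) * omT κ T‖ := by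
        have := norm_add_le (omT κ T' - (kk κ : ℂ) * omT κ T) ((kk κ : ℂ) * omT κ T)
        rwa [sub_add_cancel] at this
      have h4 : ‖(kk κ : ℂ) * omT κ T‖ ≤ kk κ * R := by
        rw [norm_mul, Complex.norm_real, Real.norm_of_nonneg hk0]
        exact mul_le_mul_of_nonneg_left h1 hk0
      linarith [h.disp]
    unfold omT at h2
    rw [← hK, norm_div, div_lt_one (norm_pos_iff.2 hA0)] at h2
    have h3 : ‖(K : ℂ) - T'‖ ^ 2 < ‖(K : ℂ) + T'‖ ^ 2 :=
      pow_lt_pow_left₀ h2 (norm_nonneg _) (by norm_num)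
    rw [← Complex.normSq_eq_norm_sq, ← Complex.normSq_eq_norm_sq, Complex.normSq_apply,
      Complex.normSq_apply, sub_re, sub_im, add_re, add_im, ofReal_re, ofReal_im] at h3
    have h4 : 0 < 4 * K * T'.re := by nlinarith
    exact (mul_pos_iff_of_pos_left (by positivity)).1 h4

/-- **Base**: the step facts on the closed corner from its frontier. -/
theorem step_max (H : CH t e κ δ s1 R) (fr : ∀ T ∈ frontier (CR e κ s1 R), StQ t e κ δ Y n T) :
    ∀ T ∈ closure (CR e κ s1 R),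
      0 < ((Real.cosh κ : ℂ) + T).re ∧ ((1 / e : ℝ) : ℂ) + t.c n * T ≠ 0 ∧
      podom t.pol (t.de e) (Tb.yT e κ T) ∧ t.rT e κ n T ≠ 0 ∧
      0 < (1 + exp (-(t.lT e κ T))).re ∧
      DifferentiableAt ℂ (t.lT e κ) T ∧ DifferentiableAt ℂ (t.rT e κ n) T ∧
      DifferentiableAt ℂ (t.MT e κ n) T ∧
      ∀ x : ℂ, ‖x‖ ≤ 1 → StepP t e κ δ Y n T x (nx t e κ n x T) ∧
        DifferentiableAt ℂ (nx t e κ n x) T ∧ e * ‖nx t e κ n x T‖ ≤ 1 / 2 ∧
        0 < (nx t e κ n x T).re := by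
  have he := H.he
  have he0 : 0 < e := by linarith
  obtain ⟨hK0, hK1, heK, hc1, hc2, hcs⟩ := mm_size H
  rcases (CR e κ s1 R).eq_empty_or_nonempty with hemp | hne
  · intro T hT
    rw [hemp, closure_empty] at hT
    exact hT.elim
  have hb := bd_CR (e := e) (κ := κ) (s1 := s1) (R := R)
  have hfc : ∀ T ∈ frontier (CR e κ s1 R), T ∈ closure (CR e κ s1 R) :=
    fun T hT => frontier_subset_closure hT
  -- sizes of the points
  have hsz : ∀ T ∈ closure (CR e κ s1 R), e * ‖T‖ ≤ 1 / 8 := by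
    intro T hT
    have h1 := mul_le_mul_of_nonneg_left (cl_CR hT).1 he0.le
    rw [mul_div_cancel₀ _ he0.ne'] at h1
    linarith [H.s8]
  have hpt : ∀ T ∈ closure (CR e κ s1 R), 7 / 8 ≤ ((Real.cosh κ : ℂ) + T).re ∧
      (Real.cosh κ : ℂ) + T ≠ 0 ∧ ((1 / e : ℝ) : ℂ) + t.c n * T ≠ 0 ∧
      podom t.pol (t.de e) (Tb.yT e κ T) := fun T hT =>
    pt_facts H (by linarith [hsz T hT]) n
  have hKT : ∀ T ∈ closure (CR e κ s1 R), (Real.sinh κ : ℂ) + T ≠ 0 := by
    intro T hT h0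
    have hT2 := (cl_CR hT).2
    have h1 : T = -(Real.sinh κ : ℂ) := by linear_combination h0
    rw [h0, norm_zero, mul_zero, h1, sub_neg_eq_add, ← two_mul, norm_mul, Complex.norm_ofNat,
      Complex.norm_real, Real.norm_of_nonneg hK0.le] at hT2
    linarith
  have dl : ∀ T ∈ closure (CR e κ s1 R), DifferentiableAt ℂ (t.lT e κ) T := fun T hT =>
    lT1 (hpt T hT).2.1 (hpt T hT).2.2.2
  have dr : ∀ T ∈ closure (CR e κ s1 R), DifferentiableAt ℂ (t.rT e κ n) T := fun T hT =>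
    rT1 (hpt T hT).2.2.1
  have dM : ∀ T ∈ closure (CR e κ s1 R), DifferentiableAt ℂ (t.MT e κ n) T := fun T hT =>
    MT1 (hpt T hT).2.1
  -- `r ≠ 0`
  obtain ⟨T0, hT0, -⟩ := Complex.exists_mem_frontier_isMaxOn_norm (f := fun z : ℂ => z) hb hne
    (dc fun T _ => differentiableAt_id)
  have hr : ∀ T ∈ closure (CR e κ s1 R), t.rT e κ n T ≠ 0 := by
    intro T hT
    have h1 := (fr T0 hT0).nd.r
    have h2 : t.an e κ n ≠ 0 := by
      intro h0
      apply h1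
      unfold Tb.rT
      rw [h0]
      simp
    unfold Tb.rT
    apply div_ne_zero _ (hpt T hT).2.2.1
    apply mul_ne_zero (mul_ne_zero two_ne_zero h2)
    rw [add_comm]
    exact hKT T hT
  -- `1 + exp (-l)`
  have hE : ∀ T ∈ closure (CR e κ s1 R), 0 < (1 + exp (-(t.lT e κ T))).re :=
    pos_of_frontier (f := fun T => 1 + exp (-(t.lT e κ T))) hb hne
      (dc fun T hT => (dl T hT).neg.cexp.const_add 1) fun T hT => (fr T hT).nd.E
  intro T hT
  refine ⟨by linarith [(hpt T hT).1], (hpt T hT).2.2.1, (hpt T hT).2.2.2, hr T hT, hE T hT, dl T hT,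
    dr T hT, dM T hT, ?_⟩
  intro x hx
  -- the step facts at the frontier
  have hst : ∀ T ∈ frontier (CR e κ s1 R), StepP t e κ δ Y n T x (nx t e κ n x T) := by
    intro T hT
    obtain ⟨T', h⟩ := (fr T hT).st x hx
    rwa [nx_eq h] at h
  have hF : ∀ T ∈ closure (CR e κ s1 R), 0 < (1 + exp (-(t.lT e κ T)) * (t.rT e κ n T * x)).re :=
    pos_of_frontier (f := fun T => 1 + exp (-(t.lT e κ T)) * (t.rT e κ n T * x)) hb hne
      (dc fun T hT => ((dl T hT).neg.cexp.mul ((dr T hT).mul_const x)).const_add 1)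
      fun T hT => (hst T hT).F
  have hg : ∀ T ∈ closure (CR e κ s1 R), 0 < (1 - t.rT e κ n T * x).re :=
    pos_of_frontier (f := fun T => 1 - t.rT e κ n T * x) hb hne
      (dc fun T hT => ((dr T hT).mul_const x).const_sub 1) fun T hT => (hst T hT).g
  have dS : ∀ T ∈ closure (CR e κ s1 R), DifferentiableAt ℂ
      (fun T => Sn e κ (Tb.yT e κ T) (t.lT e κ T) (t.rT e κ n T * x)) T := fun T hT =>
    Sn1 (yT1 (hpt T hT).2.1) (dl T hT) ((dr T hT).mul_const x) (hE T hT) (hg T hT) (hF T hT)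
  have hS1 : ∀ T ∈ closure (CR e κ s1 R),
      ‖Sn e κ (Tb.yT e κ T) (t.lT e κ T) (t.rT e κ n T * x) - 1‖ < 1 := by
    apply lt_of_frontier (f := fun T =>
      Sn e κ (Tb.yT e κ T) (t.lT e κ T) (t.rT e κ n T * x) - 1) hb hne
      (dc fun T hT => (dS T hT).sub_const 1)
    intro T hT
    have h1 := hst T hT
    obtain ⟨h2, -⟩ := step_small H (cl_CR (hfc T hT)).1 (cl_CR (hfc T hT)).2 h1
    obtain ⟨T', hT'⟩ : ∃ T', T' = nx t e κ n x T := ⟨_, rfl⟩
    rw [← hT'] at h1 h2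
    rw [h1.S]
    have h3 : ‖T'‖ ≤ 1 / 10 := by
      have := norm_nonneg T'
      nlinarith
    have h4 : ((Real.cosh κ : ℂ) + T') ^ 2 - 1 =
        (Real.sinh κ : ℂ) ^ 2 + (2 * (Real.cosh κ : ℂ) * T' + T' ^ 2) := by
      have : (Real.cosh κ : ℂ) ^ 2 = (Real.sinh κ : ℂ) ^ 2 + 1 := by exact_mod_cast hcs
      linear_combination this
    rw [h4]
    refine lt_of_le_of_lt ((norm_add_le _ _).trans (add_le_add le_rfl (norm_add_le _ _))) ?_
    rw [norm_pow, norm_pow, norm_mul, norm_mul, Complex.norm_ofNat, Complex.norm_real,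
      Complex.norm_real, Real.norm_of_nonneg hK0.le, Real.norm_of_nonneg (by linarith)]
    calc Real.sinh κ ^ 2 + (2 * Real.cosh κ * ‖T'‖ + ‖T'‖ ^ 2) ≤
          (63 / 500) ^ 2 + (2 * (126 / 125) * (1 / 10) + (1 / 10) ^ 2) := by gcongr
      _ < 1 := by norm_num
  have hslit : ∀ T ∈ closure (CR e κ s1 R),
      Sn e κ (Tb.yT e κ T) (t.lT e κ T) (t.rT e κ n T * x) ∈ slitPlane := by
    intro T hT
    have h1 := hS1 T hT
    left
    have h2 := (abs_lt.1 (lt_of_le_of_lt (Complex.abs_re_le_norm _) h1)).1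
    rw [sub_re, one_re] at h2
    linarith
  have dn : ∀ T ∈ closure (CR e κ s1 R), DifferentiableAt ℂ (nx t e κ n x) T := by
    intro T hT
    unfold nx
    exact ((dS T hT).cpow (differentiableAt_const _) (hslit T hT)).sub_const _
  have hSq : ∀ T ∈ closure (CR e κ s1 R),
      Sn e κ (Tb.yT e κ T) (t.lT e κ T) (t.rT e κ n T * x) =
        ((Real.cosh κ : ℂ) + nx t e κ n x T) ^ 2 ∧
      0 < ((Real.cosh κ : ℂ) + nx t e κ n x T).re := by
    intro T hT
    unfold nx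
    rw [add_sub_cancel, mm_hpow]
    exact ⟨rfl, mm_hre (hslit T hT)⟩
  have hre : ∀ T ∈ closure (CR e κ s1 R), 0 < (nx t e κ n x T).re :=
    pos_of_frontier hb hne (dc dn) fun T hT =>
      (step_small H (cl_CR (hfc T hT)).1 (cl_CR (hfc T hT)).2 (hst T hT)).2
  have hsmall : ∀ T ∈ closure (CR e κ s1 R), ‖nx t e κ n x T‖ ≤ 19 / 50 / e := by
    intro T hT
    refine Complex.norm_le_of_forall_mem_frontier_norm_le hb (dc dn) ?_ hT
    intro T hT
    have := (step_small H (cl_CR (hfc T hT)).1 (cl_CR (hfc T hT)).2 (hst T hT)).1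
    rw [le_div_iff₀ he0]
    linarith
  have hne' : ∀ T ∈ closure (CR e κ s1 R), nx t e κ n x T + (Real.sinh κ : ℂ) ≠ 0 := by
    intro T hT h0
    have h1 := hre T hT
    have h2 := congrArg Complex.re h0
    rw [add_re, ofReal_re, zero_re] at h2
    linarith
  have hne'' : ∀ T ∈ closure (CR e κ s1 R), (Real.sinh κ : ℂ) + nx t e κ n x T ≠ 0 := by
    intro T hT
    rw [add_comm]
    exact hne' T hT
  refine ⟨⟨hF T hT, hg T hT, (hSq T hT).1, (hSq T hT).2, hne' T hT, ?_, ?_⟩, dn T hT, ?_, hre T hT⟩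
  · refine Complex.norm_le_of_forall_mem_frontier_norm_le
      (f := fun T => omT κ (nx t e κ n x T) - (kk κ : ℂ) * omT κ T) hb (dc fun T hT => ?_)
      (fun T hT => (hst T hT).disp) hT
    unfold omT
    exact (((dn T hT).const_sub _).div ((dn T hT).const_add _) (hne'' T hT)).sub
      (((differentiableAt_id.const_sub _).div (differentiableAt_id.const_add _)
        (hKT T hT)).const_mul _)
  · refine Complex.norm_le_of_forall_mem_frontier_norm_le
      (f := fun T => nx t e κ n x T ^ 2 - (Real.sinh κ : ℂ) ^ 2) hb (dc fun T hT => ?_)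
      (fun T hT => (hst T hT).cut) hT
    exact ((dn T hT).pow 2).sub_const _
  · have h1 := mul_le_mul_of_nonneg_left (hsmall T hT) he0.le
    rw [mul_div_cancel₀ _ he0.ne'] at h1
    linarith

/-- **Middle nodes.** -/
theorem midQ_max (H : CH t e κ δ s1 R) (hθ : θ ≤ 1)
    (fr : ∀ T ∈ frontier (CR e κ s1 R), MidQ t e κ θ δ Y n T) :
    ∀ T ∈ closure (CR e κ s1 R), MidQ t e κ θ δ Y n T := by
  have he := H.he
  have he0 : 0 < e := by linarith
  rcases (CR e κ s1 R).eq_empty_or_nonempty with hemp | hne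
  · intro T hT
    rw [hemp, closure_empty] at hT
    exact hT.elim
  have hb := bd_CR (e := e) (κ := κ) (s1 := s1) (R := R)
  have hfc : ∀ T ∈ frontier (CR e κ s1 R), T ∈ closure (CR e κ s1 R) :=
    fun T hT => frontier_subset_closure hT
  have base := step_max (Y := Y) (n := n) H fun T hT =>
    ⟨(fr T hT).nd, fun x hx => by
      obtain ⟨T', h, -⟩ := (fr T hT).st x hx
      exact ⟨T', h⟩⟩
  -- the facts at the next state
  have hnx : ∀ x : ℂ, ‖x‖ ≤ 1 → ∀ T ∈ closure (CR e κ s1 R),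
      7 / 8 ≤ ((Real.cosh κ : ℂ) + nx t e κ n x T).re ∧ (Real.cosh κ : ℂ) + nx t e κ n x T ≠ 0 ∧
      ((1 / e : ℝ) : ℂ) + t.c (n + 1) * nx t e κ n x T ≠ 0 ∧
      podom t.pol (t.de e) (Tb.yT e κ (nx t e κ n x T)) := by
    intro x hx T hT
    obtain ⟨-, -, -, -, -, -, -, -, h⟩ := base T hT
    exact pt_facts H (h x hx).2.2.1 (n + 1)
  have hdn : ∀ x : ℂ, ‖x‖ ≤ 1 → ∀ T ∈ closure (CR e κ s1 R),
      DifferentiableAt ℂ (nx t e κ n x) T := by
    intro x hx T hT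
    obtain ⟨-, -, -, -, -, -, -, -, h⟩ := base T hT
    exact (h x hx).2.1
  have dl' : ∀ x : ℂ, ‖x‖ ≤ 1 → ∀ T ∈ closure (CR e κ s1 R),
      DifferentiableAt ℂ (fun T => t.lT e κ (nx t e κ n x T)) T := by
    intro x hx T hT
    exact DifferentiableAt.comp (g := t.lT e κ) T
      (lT1 (hnx x hx T hT).2.1 (hnx x hx T hT).2.2.2) (hdn x hx T hT)
  have dr' : ∀ x : ℂ, ‖x‖ ≤ 1 → ∀ T ∈ closure (CR e κ s1 R),
      DifferentiableAt ℂ (fun T => t.rT e κ (n + 1) (nx t e κ n x T)) T := by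
    intro x hx T hT
    exact DifferentiableAt.comp (g := t.rT e κ (n + 1)) T
      (rT1 (hnx x hx T hT).2.2.1) (hdn x hx T hT)
  have hfr : ∀ x : ℂ, ‖x‖ ≤ 1 → ∀ T ∈ frontier (CR e κ s1 R),
      0 < (1 + exp (-(t.lT e κ (nx t e κ n x T)))).re ∧
      ∀ x' : ℂ, ‖x'‖ ≤ 1 → ‖clo t e κ n T (nx t e κ n x T) x x'‖ < θ := by
    intro x hx T hT
    obtain ⟨T', h, h1, h2⟩ := (fr T hT).st x hx
    rw [← nx_eq h]
    exact ⟨h1, h2⟩
  have hE' : ∀ x : ℂ, ‖x‖ ≤ 1 → ∀ T ∈ closure (CR e κ s1 R),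
      0 < (1 + exp (-(t.lT e κ (nx t e κ n x T)))).re := fun x hx =>
    pos_of_frontier (f := fun T => 1 + exp (-(t.lT e κ (nx t e κ n x T)))) hb hne
      (dc fun T hT => (dl' x hx T hT).neg.cexp.const_add 1) fun T hT => (hfr x hx T hT).1
  have hclo : ∀ x : ℂ, ‖x‖ ≤ 1 → ∀ x' : ℂ, ‖x'‖ ≤ 1 → ∀ T ∈ closure (CR e κ s1 R),
      ‖clo t e κ n T (nx t e κ n x T) x x'‖ < θ := by
    intro x hx x' hx'
    refine lt_of_frontier (f := fun T => clo t e κ n T (nx t e κ n x T) x x') hb hne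
      (dc fun T hT => ?_) fun T hT => (hfr x hx T hT).2 x' hx'
    obtain ⟨-, -, -, hr, hE, dl, dr, dM, -⟩ := base T hT
    have a1 := lc1 dl hE
    have a2 := lc1 (dl' x hx T hT) (hE' x hx T hT)
    have a3 : DifferentiableAt ℂ (fun T => (e : ℂ) * log ((Real.cosh κ : ℂ) + nx t e κ n x T)) T :=
      (((hdn x hx T hT).const_add _).clog (Or.inl (by linarith [(hnx x hx T hT).1]))).const_mul _
    have a4 := (((dl.add a1).sub a2).sub a3).cexp
    have a5 := (((dl' x hx T hT).neg.cexp.mul ((dr' x hx T hT).mul_const x')).const_add 1)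
    unfold clo
    exact (dM.mul ((((a4.mul a5).const_sub 1).div dr hr).const_sub x)).const_sub x
  intro T hT
  obtain ⟨hQ, hden, hpol, hr, hE, dl, dr, dM, hst⟩ := base T hT
  refine ⟨⟨hQ, hden, hpol, hr, ?_, hE⟩, fun x hx =>
    ⟨nx t e κ n x T, (hst x hx).1, hE' x hx T hT, fun x' hx' => hclo x hx x' hx' T hT⟩⟩
  intro hM
  have h1 := hclo 1 (by simp) 0 (by simp) T hT
  unfold clo at h1
  rw [hM, zero_mul, sub_zero, norm_one] at h1
  linarith

end

end Pool.Agent.helper12.RS
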