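import Pool.Agent.helper72.EQR.HalfW

/-!
# The first node in the corner, for the tables
-/

namespace Pool.Agent.helper72.EQR

open Complex ComplexConjugate Set Filter Topology
open Pool.Agent.helper31.EQ.Y Pool.Agent.helper31.EQ.R
open Pool.Agent.helper12.RP Pool.Agent.helper12.FF Pool.Agent.helper12.RS
open Pool.Agent.helper63.RG

variable {e κ θ τ : ℝ}

/-- **The first node in the corner.** -/
theorem first_relW (he : 0 < e) (hκ : 0 < κ) {D : LamT} {t : NF} (ht : t.OK e κ D) {t0 : NF0}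
    {v η : ℝ} {p : ℂ} (hp : p = (η : ℂ) * I) (ht0 : t0.OK e κ v p D) {b1 v1 : ℝ}
    (hb : e * κ / 2 ≤ b1) (hv0 : 0 ≤ v) (hv : v ≤ v1) {tkf : PtB → ℂ}
    (hτ : ∀ {s B : ℝ} {b : PtB}, BR e κ s B b → tkf b = (τ : ℂ)) (hτ0 : 0 ≤ τ) {W0 : Set ℂ}
    (hW0 : ∀ Q' : ℂ, Q' ≠ (Real.exp (-κ) : ℂ) → ‖om κ Q' - (kk κ : ℂ) * om0 κ p‖ ≤ κ * τ →
      e * ‖Q' - (Real.cosh κ : ℂ)‖ < 1 / 2 → om κ Q' ∈ W0)
    (A : ∀ s m : ℝ, 0 < s → s ≤ v1 → 0 < m → m ≤ 1 → 2 * (m * s) ≤ b1 →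
      e * κ = 4 * (s * m) → ∀ x : ℂ, ‖x‖ ≤ 1 →
      StX (ptF t0 (b0A ((1 / e : ℝ) : ℂ) s m) 1 x)
        (fG (ptF t0 (b0A ((1 / e : ℝ) : ℂ) s m) 1 x) (tkf (b0A ((1 / e : ℝ) : ℂ) s m))) ∧
      ClA ⟨(ptF t0 (b0A ((1 / e : ℝ) : ℂ) s m) 1 x).c, 0⟩
        (ptF1 t0 t (b0A ((1 / e : ℝ) : ℂ) s m) 1 x) θ)
    (B : ∀ s m : ℝ, 0 < s → s ≤ b1 → 0 ≤ m → m ≤ 1 →
      s = e * κ / 2 → ∀ x : ℂ, ‖x‖ ≤ 1 →
      StX (ptF t0 (bB ((1 / e : ℝ) : ℂ) s) (v0B m) x)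
        (fG (ptF t0 (bB ((1 / e : ℝ) : ℂ) s) (v0B m) x) (tkf (bB ((1 / e : ℝ) : ℂ) s))) ∧
      ClA ⟨(ptF t0 (bB ((1 / e : ℝ) : ℂ) s) (v0B m) x).c, 0⟩
        (ptF1 t0 t (bB ((1 / e : ℝ) : ℂ) s) (v0B m) x) θ) :
    YF e κ θ W0 ((D.toN e κ).l0 p) ((D.toN e κ).r0 p) ((D.toN e κ).M0 p)
      (fun x => S0 e κ (tanh (κ * p)) ((D.toN e κ).l0 p) ((D.toN e κ).r0 p * x))
      ((D.toN e κ).l 0 p) ((D.toN e κ).r 0 p) ∧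
    (∀ x : ℂ, ‖x‖ ≤ 1 → 1 - (Hh κ : ℂ) ^ 2 *
      exp (-(2 * ((LA e κ : ℂ) + lF ((D.toN e κ).l0 p) ((D.toN e κ).r0 p * x))) / e) *
        (1 - tanh (κ * p) ^ 2) ∈ slitPlane) ∧
    (∀ x : ℂ, ‖x‖ ≤ 1 → Pool.Agent.helper12.RS.SH e κ (tanh (κ * p)) ((D.toN e κ).l0 p)
      ((D.toN e κ).r0 p * x) ∈ slitPlane) := by
  have hbp : 0 < e * κ / 2 := by positivity
  rcases le_total (e * κ / 2) (2 * v) with hc | hc
  · -- chart A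
    have hvp : 0 < v := by linarith
    obtain ⟨B', hB'⟩ : ∃ B', B' = (e * κ / 2) / v := ⟨_, rfl⟩
    have hB0 : 0 < B' := by rw [hB']; exact div_pos hbp hvp
    have hvB : v * B' = e * κ / 2 := by rw [hB']; field_simp
    have hB2 : B' ≤ 2 := by
      rw [hB', div_le_iff₀ hvp]
      exact hc
    obtain ⟨b, hb'⟩ : ∃ b, b = b0A ((1 / e : ℝ) : ℂ) (v : ℂ) ((B' / 2 : ℝ) : ℂ) := ⟨_, rfl⟩
    have hbr : BR e κ v B' b := by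
      refine ⟨by rw [hb']; rfl, by rw [hb']; rfl, ?_, hvp, hB0, ?_⟩
      · rw [hb']
        show (2 : ℂ) * ((B' / 2 : ℝ) : ℂ) = _
        push_cast
        ring
      · rw [hvB]
        field_simp
    have hv1 : v * 1 = v := mul_one v
    have hW := ht0.W hbr hv1
    have hl := ht0.l hbr hv1
    have hr := ht0.r hbr hv1
    have hM := ht0.M hbr hv1
    rw [ofReal_one] at hW hl hr hM
    refine yFG_of he hp (b := b) (W := t0.W b 1) (L := t0.L b 1) (R := t0.R b 1) (M := t0.M b 1)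
      (Lf := fun U' => t.Lf 0 b U') (Rf := fun U' => t.Rf 0 b U') hbr hW hl hr hM
      (fun U' => ht.l hbr 0 p U') (fun U' => ht.r hbr 0 p U') (hτ hbr) hτ0 hW0 ?_
    intro x hx
    have hA := A v (B' / 2) hvp hv (by linarith) (by linarith) (by linarith) (by linarith) x hx
    rw [← hb'] at hA
    exact hA
  · -- chart B
    obtain ⟨V, hV⟩ : ∃ V, V = v / (e * κ / 2) := ⟨_, rfl⟩
    have hV0 : 0 ≤ V := by rw [hV]; exact div_nonneg hv0 hbp.le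
    have hvV : (e * κ / 2) * V = v := by rw [hV]; field_simp
    have hV2 : V ≤ 1 / 2 := by
      rw [hV, div_le_iff₀ hbp]
      linarith
    obtain ⟨b, hb'⟩ : ∃ b, b = bB ((1 / e : ℝ) : ℂ) ((e * κ / 2 : ℝ) : ℂ) := ⟨_, rfl⟩
    have hbr : BR e κ (e * κ / 2) 1 b := by
      refine ⟨by rw [hb']; rfl, by rw [hb']; rfl, ?_, hbp, one_pos, ?_⟩
      · rw [hb', ofReal_one]
        rfl
      · field_simp
    have hVc : (V : ℂ) = v0B ((2 * V : ℝ) : ℂ) := by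
      unfold v0B
      push_cast
      ring
    have hW := ht0.W hbr hvV
    have hl := ht0.l hbr hvV
    have hr := ht0.r hbr hvV
    have hM := ht0.M hbr hvV
    refine yFG_of he hp (b := b) (W := t0.W b V) (L := t0.L b V) (R := t0.R b V) (M := t0.M b V)
      (Lf := fun U' => t.Lf 0 b U') (Rf := fun U' => t.Rf 0 b U') hbr hW hl hr hM
      (fun U' => ht.l hbr 0 p U') (fun U' => ht.r hbr 0 p U') (hτ hbr) hτ0 hW0 ?_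
    intro x hx
    have hB := B (e * κ / 2) (2 * V) hbp hb (by linarith) (by linarith) rfl x hx
    rw [← hb', ← hVc] at hB
    exact hB

/-- `0 ≤ v` -/
theorem vv_nonneg (he : 0 < e) (hκ : 0 < κ) {η : ℝ} (h0 : 0 ≤ η) (h1 : κ * η ≤ Real.pi / 2) :
    0 ≤ Tab.vv e κ (Tb.gR e) η := by
  have hs : 0 < Real.sinh (κ / 2) := Real.sinh_pos_iff.2 (by linarith)
  have hg := Tb.gR_pos e
  have ht : 0 ≤ Real.tan (κ * η) := Real.tan_nonneg_of_nonneg_of_le_pi_div_two (by positivity) h1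
  unfold Tab.vv
  positivity

/-- **The first node in the corner, for the tables.** -/
theorem first_fullW (he : 0 < e) (hκ : 0 < κ) {t : Tb} (ht : t.IsReal)
    {η : ℝ} {p : ℂ} (hp : p = (η : ℂ) * I) {b1 v1 : ℝ}
    (hb : e * κ / 2 ≤ b1) (hv0 : 0 ≤ Tab.vv e κ (Tb.gR e) η)
    (hv : Tab.vv e κ (Tb.gR e) η ≤ v1) {tkf : PtB → ℂ}
    (hτ : ∀ {s B : ℝ} {b : PtB}, BR e κ s B b → tkf b = (τ : ℂ)) (hτ0 : 0 ≤ τ) {W0 : Set ℂ}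
    (hW0 : ∀ Q' : ℂ, Q' ≠ (Real.exp (-κ) : ℂ) → ‖om κ Q' - (kk κ : ℂ) * om0 κ p‖ ≤ κ * τ →
      e * ‖Q' - (Real.cosh κ : ℂ)‖ < 1 / 2 → om κ Q' ∈ W0)
    (A : ∀ s m : ℝ, 0 < s → s ≤ v1 → 0 < m → m ≤ 1 → 2 * (m * s) ≤ b1 →
      e * κ = 4 * (s * m) → ∀ x : ℂ, ‖x‖ ≤ 1 →
      StX (ptF t.nf0 (b0A ((1 / e : ℝ) : ℂ) s m) 1 x)
        (fG (ptF t.nf0 (b0A ((1 / e : ℝ) : ℂ) s m) 1 x) (tkf (b0A ((1 / e : ℝ) : ℂ) s m))) ∧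
      ClA ⟨(ptF t.nf0 (b0A ((1 / e : ℝ) : ℂ) s m) 1 x).c, 0⟩
        (ptF1 t.nf0 t.nf (b0A ((1 / e : ℝ) : ℂ) s m) 1 x) θ)
    (B : ∀ s m : ℝ, 0 < s → s ≤ b1 → 0 ≤ m → m ≤ 1 →
      s = e * κ / 2 → ∀ x : ℂ, ‖x‖ ≤ 1 →
      StX (ptF t.nf0 (bB ((1 / e : ℝ) : ℂ) s) (v0B m) x)
        (fG (ptF t.nf0 (bB ((1 / e : ℝ) : ℂ) s) (v0B m) x) (tkf (bB ((1 / e : ℝ) : ℂ) s))) ∧
      ClA ⟨(ptF t.nf0 (bB ((1 / e : ℝ) : ℂ) s) (v0B m) x).c, 0⟩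
        (ptF1 t.nf0 t.nf (bB ((1 / e : ℝ) : ℂ) s) (v0B m) x) θ) :
    YF e κ θ W0 (((t.lamT ht e κ).toN e κ).l0 p) (((t.lamT ht e κ).toN e κ).r0 p) (((t.lamT ht e κ).toN e κ).M0 p)
      (fun x => S0 e κ (tanh (κ * p)) (((t.lamT ht e κ).toN e κ).l0 p) (((t.lamT ht e κ).toN e κ).r0 p * x))
      (((t.lamT ht e κ).toN e κ).l 0 p) (((t.lamT ht e κ).toN e κ).r 0 p) ∧
    (∀ x : ℂ, ‖x‖ ≤ 1 → 1 - (Hh κ : ℂ) ^ 2 *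
      exp (-(2 * ((LA e κ : ℂ) + lF (((t.lamT ht e κ).toN e κ).l0 p) (((t.lamT ht e κ).toN e κ).r0 p * x))) / e) *
        (1 - tanh (κ * p) ^ 2) ∈ slitPlane) ∧
    (∀ x : ℂ, ‖x‖ ≤ 1 → Pool.Agent.helper12.RS.SH e κ (tanh (κ * p)) (((t.lamT ht e κ).toN e κ).l0 p)
      (((t.lamT ht e κ).toN e κ).r0 p * x) ∈ slitPlane) := by
  have h0 : t.nf0.OK e κ (Tab.vv e κ (Tb.gR e) η) p (t.lamT ht e κ) := by
    rw [hp]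
    exact Tb.nf0_ok he hκ ht
  exact first_relW he hκ (Tb.nf_ok he ht) hp h0 hb hv0 hv hτ hτ0 hW0 A B

end Pool.Agent.helper72.EQR
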