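import Pool.Agent.helper12.RS.NodeW
import Pool.Agent.helper12.RS.Tb

/-!
# Conjugation symmetry of the node conditions
-/

namespace Pool.Agent.helper72.EQR

open Complex ComplexConjugate Set Filter Topology
open Pool.Agent.helper31.EQ.Y Pool.Agent.helper31.EQ.R
open Pool.Agent.helper12.RP Pool.Agent.helper12.FF Pool.Agent.helper12.RS
open Pool.Agent.helper63.RG

variable {e κ θ τ : ℝ}

/-! ### conjugation of the elementary functions -/

theorem explog_conj (z : ℂ) : exp (log (conj z)) = conj (exp (log z)) := by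
  by_cases hz : z = 0
  · rw [hz, map_zero, Complex.log_zero, Complex.exp_zero, map_one]
  · rw [exp_log hz, exp_log ((map_ne_zero _).2 hz)]

theorem log_conj_slit {z : ℂ} (h : z ∈ slitPlane) : log (conj z) = conj (log z) :=
  Complex.log_conj z (slitPlane_arg_ne_pi h)

theorem half_conj {z : ℂ} (h : z ∈ slitPlane) :
    (conj z) ^ ((1 / 2 : ℝ) : ℂ) = conj (z ^ ((1 / 2 : ℝ) : ℂ)) := by
  rw [Complex.conj_cpow _ _ (slitPlane_arg_ne_pi h), conj_ofReal]

theorem pow_conj {z : ℂ} (h : z ∈ slitPlane) :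
    (conj z) ^ (-(e : ℂ)) = conj (z ^ (-(e : ℂ))) := by
  rw [Complex.conj_cpow _ _ (slitPlane_arg_ne_pi h), map_neg, conj_ofReal]

theorem slit_of_re {z : ℂ} (h : 0 < z.re) : z ∈ slitPlane :=
  Complex.mem_slitPlane_iff.2 (Or.inl h)

theorem one_exp_conj (l : ℂ) : 1 + exp (-(conj l)) = conj (1 + exp (-l)) := by
  rw [map_add, map_one, ← exp_conj, map_neg]

theorem one_exp_mul_conj (l χ : ℂ) : 1 + exp (-(conj l)) * conj χ = conj (1 + exp (-l) * χ) := by
  rw [map_add, map_one, map_mul, ← exp_conj, map_neg]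

theorem lc_conj {l : ℂ} (h : 0 < (1 + exp (-l)).re) : lc (conj l) = conj (lc l) := by
  unfold lc
  rw [one_exp_conj, log_conj_slit (slit_of_re h)]

theorem LC_conj {l χ : ℂ} (h : LC (conj l) (conj χ)) : LC l χ := by
  refine ⟨?_, ?_, ?_⟩
  · have h1 := h.E
    rw [one_exp_conj, conj_re] at h1
    exact h1
  · have h1 := h.F
    rw [one_exp_mul_conj, conj_re] at h1
    exact h1
  · have h1 := Pool.Agent.helper12.RS.slit_conj h.g
    have h2 : conj (1 - conj χ) = 1 - χ := by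
      rw [map_sub, map_one, conj_conj]
    rwa [h2] at h1

theorem lF_conj {l χ : ℂ} (h : LC l χ) : lF (conj l) (conj χ) = conj (lF l χ) := by
  unfold lF
  rw [one_exp_mul_conj, log_conj_slit (slit_of_re h.F), lc_conj h.E, map_sub]

theorem lG_conj {l χ : ℂ} (h : LC l χ) : lG (conj l) (conj χ) = conj (lG l χ) := by
  unfold lG
  have h1 : 1 - conj χ = conj (1 - χ) := by rw [map_sub, map_one]
  rw [h1, log_conj_slit h.g, lc_conj h.E, map_sub, map_sub]

theorem Sn_conj {y l χ : ℂ} (h : LC l χ) :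
    Sn e κ (conj y) (conj l) (conj χ) = conj (Sn e κ y l χ) := by
  unfold Sn
  rw [lF_conj h, lG_conj h]
  simp only [map_add, map_one, map_mul, map_pow, map_div₀, map_neg, map_sub, conj_ofReal,
    ← exp_conj, show (conj (2 : ℂ)) = 2 from Complex.conj_ofNat 2]

theorem exp_lF_conj (l χ : ℂ) : exp (lF (conj l) (conj χ)) = conj (exp (lF l χ)) := by
  unfold lF lc
  rw [exp_sub, exp_sub, map_div₀, one_exp_conj, one_exp_mul_conj, explog_conj, explog_conj]

theorem exp_CL_conj (l : ℂ) : exp (CL (conj l)) = conj (exp (CL l)) := by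
  unfold CL lc
  rw [exp_add, exp_add, map_mul, one_exp_conj, explog_conj, exp_conj l]

theorem om_conj (Q : ℂ) : om κ (conj Q) = conj (om κ Q) := by
  unfold om
  rw [map_div₀, map_sub, map_sub, conj_ofReal, conj_ofReal]

theorem NC_conj {l r M S x : ℂ} (h : NC (conj l) (conj r) (conj M) (conj S) (conj x)) :
    NC l r M S x := by
  refine ⟨(map_ne_zero _).1 h.r_ne, (map_ne_zero _).1 h.M_ne, ?_, ?_⟩
  · apply LC_conj
    rw [map_mul]
    exact h.lc
  · have := Pool.Agent.helper12.RS.slit_conj h.S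
    rwa [conj_conj] at this

/-- the exponential of the law -/
theorem exp_law_conj {l S l1 r1 x' : ℂ} (hS : S ∈ slitPlane) :
    exp (CL (conj l) - (e : ℂ) / 2 * log (conj S) + lF (conj l1) (conj r1 * conj x')) =
      conj (exp (CL l - (e : ℂ) / 2 * log S + lF l1 (r1 * x'))) := by
  rw [exp_add, exp_add, exp_sub, exp_sub, ← map_mul, exp_lF_conj, exp_CL_conj, log_conj_slit hS,
    map_mul, map_div₀]
  congr 2
  rw [← exp_conj, map_mul, map_div₀, conj_ofReal, show (conj (2 : ℂ)) = 2 from Complex.conj_ofNat 2]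

/-- **Symmetry of a middle node**, general form. -/
theorem YG_conj {l r M Q : ℂ} {S S' : ℂ → ℂ} {l' r' : ℂ → ℂ}
    (H : YG e κ θ τ (conj l) (conj r) (conj M) S' (conj Q) l' r')
    (hS : ∀ x : ℂ, LC l (r * x) → S' (conj x) = conj (S x))
    (hl : ∀ s ∈ slitPlane, l' ((e : ℂ) * (1 - (conj s)⁻¹)) = conj (l' ((e : ℂ) * (1 - s⁻¹))))
    (hr : ∀ s ∈ slitPlane, r' ((e : ℂ) * (1 - (conj s)⁻¹)) = conj (r' ((e : ℂ) * (1 - s⁻¹)))) :
    YG e κ θ τ l r M S Q l' r' := by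
  have hx1 : ∀ x : ℂ, ‖x‖ ≤ 1 → ‖conj x‖ ≤ 1 := fun x hx => by rwa [norm_conj]
  have hSx : ∀ x : ℂ, ‖x‖ ≤ 1 → S' (conj x) = conj (S x) := by
    intro x hx
    refine hS x (LC_conj ?_)
    rw [map_mul]
    exact (H.nc _ (hx1 x hx)).lc
  have hnc : ∀ x : ℂ, ‖x‖ ≤ 1 → NC l r M (S x) x := by
    intro x hx
    apply NC_conj
    have := H.nc _ (hx1 x hx)
    rwa [hSx x hx] at this
  refine ⟨hnc, ?_, ?_, ?_, ?_⟩
  · intro x hx h
    have h1 := H.ne _ (hx1 x hx)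
    rw [hSx x hx, half_conj (hnc x hx).S, h, conj_ofReal] at h1
    exact h1 rfl
  · intro x hx
    have h1 := H.disp _ (hx1 x hx)
    rw [hSx x hx, half_conj (hnc x hx).S, om_conj, om_conj] at h1
    have h2 : conj (om κ (S x ^ ((1 / 2 : ℝ) : ℂ))) - (kk κ : ℂ) * conj (om κ Q) =
        conj (om κ (S x ^ ((1 / 2 : ℝ) : ℂ)) - (kk κ : ℂ) * om κ Q) := by
      rw [map_sub, map_mul, conj_ofReal]
    rwa [h2, norm_conj] at h1
  · intro x hx
    have h1 := H.T _ (hx1 x hx)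
    rw [hSx x hx, half_conj (hnc x hx).S] at h1
    have h2 : conj (S x ^ ((1 / 2 : ℝ) : ℂ)) - (Real.cosh κ : ℂ) =
        conj (S x ^ ((1 / 2 : ℝ) : ℂ) - (Real.cosh κ : ℂ)) := by
      rw [map_sub, conj_ofReal]
    rwa [h2, norm_conj] at h1
  · intro x x' hx hx'
    have h1 := H.close _ _ (hx1 x hx) (hx1 x' hx')
    have hs := (hnc x hx).S
    rw [hSx x hx, hl _ hs, hr _ hs, exp_law_conj hs] at h1
    have h2 : ∀ E : ℂ, conj x - conj M * (conj x - (1 - conj E) / conj r) =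
        conj (x - M * (x - (1 - E) / r)) := by
      intro E
      simp only [map_sub, map_mul, map_div₀, map_one]
    rwa [h2, norm_conj] at h1

theorem re_pos_of_T (he2 : 2 ≤ e) {Q' : ℂ} (h : e * ‖Q' - (Real.cosh κ : ℂ)‖ < 1 / 2) :
    0 < (2 * (Real.cosh κ : ℂ) - Q'⁻¹).re ∧
      0 < (2 * (Real.cosh κ : ℂ) - (2 * (Real.cosh κ : ℂ) - Q'⁻¹)⁻¹).re := by
  have hc := Real.one_le_cosh κ
  have h1 : ‖Q' - (Real.cosh κ : ℂ)‖ < 1 / 4 := by
    have h0 := norm_nonneg (Q' - (Real.cosh κ : ℂ))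
    nlinarith
  have hcn : ‖(Real.cosh κ : ℂ)‖ = Real.cosh κ := by
    rw [Complex.norm_real, Real.norm_of_nonneg (by linarith)]
  have h2 : 3 / 4 ≤ ‖Q'‖ := by
    have h3 := norm_sub_norm_le (Real.cosh κ : ℂ) ((Real.cosh κ : ℂ) - Q')
    have h4 : (Real.cosh κ : ℂ) - ((Real.cosh κ : ℂ) - Q') = Q' := by ring
    rw [h4, hcn, norm_sub_rev] at h3
    linarith
  have h5 : ‖Q'⁻¹‖ ≤ 4 / 3 := by
    rw [norm_inv, inv_le_comm₀ (by linarith) (by norm_num)]
    linarith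
  have hre : (2 * (Real.cosh κ : ℂ)).re = 2 * Real.cosh κ := by
    rw [show (2 * (Real.cosh κ : ℂ)) = ((2 * Real.cosh κ : ℝ) : ℂ) by push_cast; ring, ofReal_re]
  have h6 : 2 / 3 ≤ (2 * (Real.cosh κ : ℂ) - Q'⁻¹).re := by
    rw [sub_re, hre]
    have := (abs_le.1 (Complex.abs_re_le_norm (Q'⁻¹))).2
    linarith
  have h7 : ‖(2 * (Real.cosh κ : ℂ) - Q'⁻¹)⁻¹‖ ≤ 3 / 2 := by
    have h8 := Complex.re_le_norm (2 * (Real.cosh κ : ℂ) - Q'⁻¹)
    rw [norm_inv, inv_le_comm₀ (by linarith) (by norm_num)]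
    linarith
  refine ⟨by linarith, ?_⟩
  rw [sub_re, hre]
  have := (abs_le.1 (Complex.abs_re_le_norm ((2 * (Real.cosh κ : ℂ) - Q'⁻¹)⁻¹))).2
  linarith

/-- **Symmetry of the last node**, general form. -/
theorem YLG_conj (he2 : 2 ≤ e) {A x0 B1 : ℝ} {l r M Q : ℂ} {S S' : ℂ → ℂ}
    (H : YLG e κ θ τ A x0 B1 (conj l) (conj r) (conj M) S' (conj Q))
    (hS : ∀ x : ℂ, LC l (r * x) → S' (conj x) = conj (S x)) :
    YLG e κ θ τ A x0 B1 l r M S Q := by
  have hx1 : ∀ x : ℂ, ‖x‖ ≤ 1 → ‖conj x‖ ≤ 1 := fun x hx => by rwa [norm_conj]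
  have hSx : ∀ x : ℂ, ‖x‖ ≤ 1 → S' (conj x) = conj (S x) := by
    intro x hx
    refine hS x (LC_conj ?_)
    rw [map_mul]
    exact (H.nc _ (hx1 x hx)).lc
  have hnc : ∀ x : ℂ, ‖x‖ ≤ 1 → NC l r M (S x) x := by
    intro x hx
    apply NC_conj
    have := H.nc _ (hx1 x hx)
    rwa [hSx x hx] at this
  have hT : ∀ x : ℂ, ‖x‖ ≤ 1 → e * ‖S x ^ ((1 / 2 : ℝ) : ℂ) - (Real.cosh κ : ℂ)‖ < 1 / 2 := by
    intro x hx
    have h1 := H.T _ (hx1 x hx)
    rw [hSx x hx, half_conj (hnc x hx).S] at h1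
    have h2 : conj (S x ^ ((1 / 2 : ℝ) : ℂ)) - (Real.cosh κ : ℂ) =
        conj (S x ^ ((1 / 2 : ℝ) : ℂ) - (Real.cosh κ : ℂ)) := by
      rw [map_sub, conj_ofReal]
    rwa [h2, norm_conj] at h1
  refine ⟨hnc, ?_, ?_, hT, ?_⟩
  · intro x hx h
    have h1 := H.ne _ (hx1 x hx)
    rw [hSx x hx, half_conj (hnc x hx).S, h, conj_ofReal] at h1
    exact h1 rfl
  · intro x hx
    have h1 := H.disp _ (hx1 x hx)
    rw [hSx x hx, half_conj (hnc x hx).S, om_conj, om_conj] at h1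
    have h2 : conj (om κ (S x ^ ((1 / 2 : ℝ) : ℂ))) - (kk κ : ℂ) * conj (om κ Q) =
        conj (om κ (S x ^ ((1 / 2 : ℝ) : ℂ)) - (kk κ : ℂ) * om κ Q) := by
      rw [map_sub, map_mul, conj_ofReal]
    rwa [h2, norm_conj] at h1
  · intro x hx Q' Q1 Q2 q2 q3 g1 g2 g3 g4 g5
    have hs := (hnc x hx).S
    have hre := re_pos_of_T he2 (hT x hx)
    rw [← g1, ← g2, ← g3] at hre
    have hc2 : conj (2 * (Real.cosh κ : ℂ)) = 2 * (Real.cosh κ : ℂ) := by
      rw [map_mul, conj_ofReal, show (conj (2 : ℂ)) = 2 from Complex.conj_ofNat 2]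
    have k1 : conj Q' = S' (conj x) ^ ((1 / 2 : ℝ) : ℂ) := by
      rw [hSx x hx, half_conj hs, g1]
    have k2 : conj Q1 = 2 * (Real.cosh κ : ℂ) - (conj Q')⁻¹ := by
      rw [g2, map_sub, map_inv₀, hc2]
    have k3 : conj Q2 = 2 * (Real.cosh κ : ℂ) - (conj Q1)⁻¹ := by
      rw [g3, map_sub, map_inv₀, hc2]
    have k4 : conj q2 = (conj Q1) ^ (-(e : ℂ)) := by
      rw [g4, pow_conj (slit_of_re hre.1)]
    have k5 : conj q3 = (conj Q2) ^ (-(e : ℂ)) := by
      rw [g5, pow_conj (slit_of_re hre.2)]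
    obtain ⟨h1, h2, h3⟩ := H.close _ (hx1 x hx) (conj Q') (conj Q1) (conj Q2) (conj q2) (conj q3)
      k1 k2 k3 k4 k5
    have j1 : 1 + conj q3 = conj (1 + q3) := by rw [map_add, map_one]
    rw [j1] at h1 h2 h3
    rw [norm_conj, norm_conj] at h1
    refine ⟨h1, (map_ne_zero _).1 h2, ?_⟩
    intro f2 χ hf hχ
    have h4 := h3 (conj f2) (conj χ) (by
      have e1 : conj f2 - 1 / conj (1 + q3) = conj (f2 - 1 / (1 + q3)) := by
        rw [map_sub, map_div₀, map_one]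
      have e2 : (conj Q2 - (Real.cosh κ : ℂ)) ^ 2 - (Real.sinh κ : ℂ) ^ 2 =
          conj ((Q2 - (Real.cosh κ : ℂ)) ^ 2 - (Real.sinh κ : ℂ) ^ 2) := by
        rw [map_sub, map_pow, map_pow, map_sub, conj_ofReal, conj_ofReal]
      rw [e1, e2, norm_conj, norm_conj, norm_conj, norm_conj]
      exact hf) (by
      have e1 : (conj Q' - (Real.exp (-κ) : ℂ)) / conj Q' =
          conj ((Q' - (Real.exp (-κ) : ℂ)) / Q') := by
        rw [map_div₀, map_sub, conj_ofReal]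
      rw [e1, norm_conj, norm_conj]
      exact hχ)
    have e3 : exp (conj l + lc (conj l) - (e : ℂ) / 2 * log (S' (conj x))) =
        conj (exp (l + lc l - (e : ℂ) / 2 * log (S x))) := by
      have a1 : exp (l + lc l) = exp (CL l) := rfl
      have a2 : exp (conj l + lc (conj l)) = exp (CL (conj l)) := rfl
      rw [exp_sub, exp_sub, a1, a2, exp_CL_conj, hSx x hx, log_conj_slit hs, map_div₀]
      congr 1
      rw [← exp_conj, map_mul, map_div₀, conj_ofReal,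
        show (conj (2 : ℂ)) = 2 from Complex.conj_ofNat 2]
    rw [e3] at h4
    have e4 : ∀ E : ℂ, conj x - conj M * (conj x - (1 - conj E * (1 - conj q2 * conj f2 *
        (1 - conj χ))) / conj r) = conj (x - M * (x - (1 - E * (1 - q2 * f2 * (1 - χ))) / r)) := by
      intro E
      simp only [map_sub, map_mul, map_div₀, map_one]
    rwa [e4, norm_conj] at h4

/-! ### the record of the tables -/

variable {t : Tb}

theorem toN_l_conj (ht : t.IsReal) {n : ℕ} {p y : ℂ} (h : 1 - y / e ∈ slitPlane) :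
    ((t.lamT ht e κ).toN e κ).l n p (conj y) = conj (((t.lamT ht e κ).toN e κ).l n p y) := by
  show t.lT e κ (Ty e κ (conj y)) = conj (t.lT e κ (Ty e κ y))
  rw [Ty_conj h, Tb.lT_conj ht]

theorem toN_r_conj (ht : t.IsReal) {n : ℕ} {p y : ℂ} (h : 1 - y / e ∈ slitPlane) :
    ((t.lamT ht e κ).toN e κ).r n p (conj y) = conj (((t.lamT ht e κ).toN e κ).r n p y) := by
  show t.rT e κ n (Ty e κ (conj y)) = conj (t.rT e κ n (Ty e κ y))
  rw [Ty_conj h, Tb.rT_conj ht]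

theorem toN_M_conj (ht : t.IsReal) {n : ℕ} {p y : ℂ} (h : 1 - y / e ∈ slitPlane) :
    ((t.lamT ht e κ).toN e κ).M n p (conj y) = conj (((t.lamT ht e κ).toN e κ).M n p y) := by
  show t.MT e κ n (Ty e κ (conj y)) = conj (t.MT e κ n (Ty e κ y))
  rw [Ty_conj h, Tb.MT_conj ht]

theorem y_slit (he : 0 < e) {Q y : ℂ} (hQ : Real.cosh κ < Q.re)
    (hy : y = (e : ℂ) * (1 - (Q ^ 2)⁻¹)) : 1 - y / e ∈ slitPlane := by
  rw [y_div he hy]
  exact (inv_sq_slit ((Real.cosh_pos κ).trans hQ)).1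

theorem inv_slit {s : ℂ} (hs : s ∈ slitPlane) : s⁻¹ ∈ slitPlane := by
  have h0 := slitPlane_ne_zero hs
  have h1 : s⁻¹ = ((Complex.normSq s)⁻¹ : ℝ) * conj s := by
    rw [Complex.inv_def, mul_comm]
  have h2 : 0 < (Complex.normSq s)⁻¹ := inv_pos.2 (Complex.normSq_pos.2 h0)
  have h3 := Pool.Agent.helper12.RS.slit_conj hs
  rw [h1, Complex.mem_slitPlane_iff, re_ofReal_mul, im_ofReal_mul]
  rcases Complex.mem_slitPlane_iff.1 h3 with h | h
  · exact Or.inl (mul_pos h2 h)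
  · exact Or.inr (mul_ne_zero h2.ne' h)

theorem S_slit (he : 0 < e) {s : ℂ} (hs : s ∈ slitPlane) :
    1 - ((e : ℂ) * (1 - s⁻¹)) / e ∈ slitPlane := by
  have he0 : (e : ℂ) ≠ 0 := by exact_mod_cast he.ne'
  have h1 : 1 - ((e : ℂ) * (1 - s⁻¹)) / e = s⁻¹ := by
    rw [mul_div_cancel_left₀ _ he0]
    ring
  rw [h1]
  exact inv_slit hs

theorem S_conj (s : ℂ) : (e : ℂ) * (1 - (conj s)⁻¹) = conj ((e : ℂ) * (1 - s⁻¹)) := by
  rw [map_mul, conj_ofReal, map_sub, map_one, map_inv₀]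

/-- **Symmetry of a middle node.** -/
theorem YG_symm (ht : t.IsReal) (he : 0 < e) {n : ℕ} {p Q y : ℂ}
    (hQ : Real.cosh κ < Q.re) (hy : y = (e : ℂ) * (1 - (Q ^ 2)⁻¹))
    (H : YG e κ θ τ (((t.lamT ht e κ).toN e κ).l n p (conj y))
      (((t.lamT ht e κ).toN e κ).r n p (conj y)) (((t.lamT ht e κ).toN e κ).M n p (conj y))
      (fun x => Sn e κ (conj y) (((t.lamT ht e κ).toN e κ).l n p (conj y))
        (((t.lamT ht e κ).toN e κ).r n p (conj y) * x)) (conj Q)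
      (((t.lamT ht e κ).toN e κ).l (n + 1) p) (((t.lamT ht e κ).toN e κ).r (n + 1) p)) :
    YG e κ θ τ (((t.lamT ht e κ).toN e κ).l n p y)
      (((t.lamT ht e κ).toN e κ).r n p y) (((t.lamT ht e κ).toN e κ).M n p y)
      (fun x => Sn e κ y (((t.lamT ht e κ).toN e κ).l n p y)
        (((t.lamT ht e κ).toN e κ).r n p y * x)) Q
      (((t.lamT ht e κ).toN e κ).l (n + 1) p) (((t.lamT ht e κ).toN e κ).r (n + 1) p) := by
  have hsl := y_slit he hQ hy
  rw [toN_l_conj ht hsl, toN_r_conj ht hsl, toN_M_conj ht hsl] at H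
  refine YG_conj H ?_ ?_ ?_
  · intro x hx
    show Sn e κ (conj y) (conj _) (conj _ * conj x) = _
    rw [← map_mul, Sn_conj hx]
  · intro s hs
    rw [S_conj, toN_l_conj ht (S_slit he hs)]
  · intro s hs
    rw [S_conj, toN_r_conj ht (S_slit he hs)]

/-- **Symmetry of the last node.** -/
theorem YLG_symm (ht : t.IsReal) (he2 : 2 ≤ e) {A x0 B1 : ℝ} {n : ℕ} {p Q y : ℂ}
    (hQ : Real.cosh κ < Q.re) (hy : y = (e : ℂ) * (1 - (Q ^ 2)⁻¹))
    (H : YLG e κ θ τ A x0 B1 (((t.lamT ht e κ).toN e κ).l n p (conj y))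
      (((t.lamT ht e κ).toN e κ).r n p (conj y)) (((t.lamT ht e κ).toN e κ).M n p (conj y))
      (fun x => Sn e κ (conj y) (((t.lamT ht e κ).toN e κ).l n p (conj y))
        (((t.lamT ht e κ).toN e κ).r n p (conj y) * x)) (conj Q)) :
    YLG e κ θ τ A x0 B1 (((t.lamT ht e κ).toN e κ).l n p y)
      (((t.lamT ht e κ).toN e κ).r n p y) (((t.lamT ht e κ).toN e κ).M n p y)
      (fun x => Sn e κ y (((t.lamT ht e κ).toN e κ).l n p y)
        (((t.lamT ht e κ).toN e κ).r n p y * x)) Q := by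
  have he : 0 < e := by linarith
  have hsl := y_slit he hQ hy
  rw [toN_l_conj ht hsl, toN_r_conj ht hsl, toN_M_conj ht hsl] at H
  refine YLG_conj he2 H ?_
  intro x hx
  show Sn e κ (conj y) (conj _) (conj _ * conj x) = _
  rw [← map_mul, Sn_conj hx]

end Pool.Agent.helper72.EQR
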