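import Pool.Agent.helper12.RS.Om
import Pool.Agent.helper71.FG.Reg

/-!
# The entry into the far field for `e ≥ 20`
-/

namespace Pool.Agent.helper72.EQR

open Complex
open Pool.Agent.helper12.FF Pool.Agent.helper12.RS Pool.Agent.helper71.FG

variable {e κ : ℝ}

/-- `2 sinh κ R/(1 - R) ≤ 1/x` for `R = exp (-2κx)`, `x ≥ 1` -/
theorem two_K_R (hκ : 0 < κ) {x : ℝ} (hx : 1 ≤ x) :
    2 * Real.sinh κ * (Real.exp (-(2 * κ * x)) / (1 - Real.exp (-(2 * κ * x)))) ≤ 1 / x := by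
  have hx0 : 0 < x := by linarith
  obtain ⟨E, hE⟩ : ∃ E, E = Real.exp (2 * κ * x) := ⟨_, rfl⟩
  obtain ⟨s, hs⟩ : ∃ s, s = Real.exp (2 * κ) - 1 := ⟨_, rfl⟩
  have hs0 : 0 < s := by
    rw [hs]
    have := Real.one_lt_exp_iff.2 (show 0 < 2 * κ by linarith)
    linarith
  have hB : 1 + x * s ≤ E := by
    have h1 := one_add_mul_self_le_rpow_one_add (show -1 ≤ s by linarith) hx
    have h2 : (1 + s) ^ x = E := by
      rw [hs, hE, add_sub_cancel, ← Real.exp_mul]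
    rwa [h2] at h1
  have hE1 : 0 < E - 1 := by
    have : 0 < x * s := by positivity
    linarith
  have hR : Real.exp (-(2 * κ * x)) = E⁻¹ := by rw [hE, Real.exp_neg]
  have hE0 : 0 < E := by linarith
  have h1 : E⁻¹ / (1 - E⁻¹) = 1 / (E - 1) := by
    have h2 : 1 - E⁻¹ = (E - 1) * E⁻¹ := by field_simp
    rw [h2]
    field_simp
  have h3 : 2 * Real.sinh κ ≤ s := by
    have e1 : 2 * Real.sinh κ = Real.exp κ - Real.exp (-κ) := by
      rw [Real.sinh_eq]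
      ring
    have e2 : s = Real.exp κ * (Real.exp κ - Real.exp (-κ)) := by
      have h4 : Real.exp κ * Real.exp (-κ) = 1 := by
        rw [← Real.exp_add, add_neg_cancel, Real.exp_zero]
      have h5 : Real.exp (2 * κ) = Real.exp κ * Real.exp κ := by
        rw [← Real.exp_add]
        congr 1
        ring
      rw [hs, h5]
      linear_combination h4
    have h6 : 0 < Real.exp κ - Real.exp (-κ) := by
      have := Real.exp_lt_exp.2 (show -κ < κ by linarith)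
      linarith
    rw [e1, e2]
    have h7 := Real.one_le_exp hκ.le
    nlinarith
  rw [hR, h1, mul_one_div, div_le_div_iff₀ hE1 hx0]
  have h8 := mul_le_mul_of_nonneg_right h3 hx0.le
  linarith

/-- the cut of the last link gives the region `RE` -/
theorem ent_RE (he : 0 < e) (hκ : 0 < κ) {x0 YL : ℝ} (hx : 39 / 10 ≤ x0) (hY : e ^ 2 * YL ≤ 19)
    {Q : ℂ} (hcut : ‖(Q - (Real.cosh κ : ℂ)) ^ 2 - (Real.sinh κ : ℂ) ^ 2‖ ≤
      Real.sinh κ ^ 2 + YL) : tQ κ Q ∈ RE e κ (Real.exp (-(2 * κ * (x0 + 1)))) := by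
  have hK : 0 < Real.sinh κ := Real.sinh_pos_iff.2 hκ
  have hKc : (Real.sinh κ : ℂ) ≠ 0 := by exact_mod_cast hK.ne'
  have h1 := two_K_R hκ (show 1 ≤ x0 + 1 by linarith)
  have h2 : 1 / (x0 + 1) ≤ 10 / 49 := by
    rw [div_le_div_iff₀ (by linarith) (by norm_num)]
    linarith
  have h3 : Real.sinh κ ^ 2 * ‖tQ κ Q ^ 2 - 1‖ =
      ‖(Q - (Real.cosh κ : ℂ)) ^ 2 - (Real.sinh κ : ℂ) ^ 2‖ := by
    have h4 : (Q - (Real.cosh κ : ℂ)) ^ 2 - (Real.sinh κ : ℂ) ^ 2 =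
        ((Real.sinh κ : ℂ)) ^ 2 * (tQ κ Q ^ 2 - 1) := by
      unfold tQ
      field_simp
    rw [h4, norm_mul, norm_pow, Complex.norm_real, Real.norm_of_nonneg hK.le]
  show e ^ 2 * Real.sinh κ ^ 2 * ‖tQ κ Q ^ 2 - 1‖ < C2f e κ * (1 - 2 * Real.sinh κ *
    (Real.exp (-(2 * κ * (x0 + 1))) / (1 - Real.exp (-(2 * κ * (x0 + 1))))))
  obtain ⟨q, hq⟩ : ∃ q, q = 2 * Real.sinh κ * (Real.exp (-(2 * κ * (x0 + 1))) /
    (1 - Real.exp (-(2 * κ * (x0 + 1))))) := ⟨_, rfl⟩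
  rw [← hq] at h1 ⊢
  have hq2 : q ≤ 10 / 49 := h1.trans h2
  rw [mul_assoc, h3]
  obtain ⟨X, hX⟩ : ∃ X, X = e * Real.sinh κ * (e * Real.sinh κ) := ⟨_, rfl⟩
  have hX0 : 0 ≤ X := by rw [hX]; positivity
  have h5 : e ^ 2 * ‖(Q - (Real.cosh κ : ℂ)) ^ 2 - (Real.sinh κ : ℂ) ^ 2‖ ≤ X + 19 := by
    have h6 := mul_le_mul_of_nonneg_left hcut (sq_nonneg e)
    have h7 : e ^ 2 * (Real.sinh κ ^ 2 + YL) = X + e ^ 2 * YL := by rw [hX]; ring
    linarith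
  have h8 : C2f e κ = X * (13 / 10) + 25 := by
    unfold C2f
    rw [hX]
  rw [h8]
  have h9 : (X * (13 / 10) + 25) * (39 / 49) ≤ (X * (13 / 10) + 25) * (1 - q) :=
    mul_le_mul_of_nonneg_left (by linarith) (by linarith)
  linarith

/-- **The entry.** -/
theorem ent_OmR (he : 0 < e) (hκ : 0 < κ) {x0 YL : ℝ} (hx : 39 / 10 ≤ x0) (hY : e ^ 2 * YL ≤ 19)
    {Q : ℂ} (hQ : Real.cosh κ < Q.re) (hom : ‖om κ Q‖ < Real.exp (-(2 * κ * x0)))
    (hcut : ‖(Q - (Real.cosh κ : ℂ)) ^ 2 - (Real.sinh κ : ℂ) ^ 2‖ ≤ Real.sinh κ ^ 2 + YL) :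
    tQ κ Q ∈ OmR κ (Real.exp (-(2 * κ * (x0 + 1)))) (RE e κ (Real.exp (-(2 * κ * (x0 + 1))))) := by
  refine ⟨?_, ent_RE he hκ hx hY hcut⟩
  have h1 := entry_om hκ (ne_exp_neg hκ hQ) (show 0 ≤ x0 by linarith) hom
  have h2 : Real.exp (2 * κ) * Real.exp (-(2 * κ * (x0 + 1))) = Real.exp (-(2 * κ * x0)) := by
    rw [← Real.exp_add]
    congr 1
    ring
  rw [h2]
  exact h1

/-- the same for `w ^ 0 * R` in place of `R` (`Ω 0` of `farN_ofR`) -/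
theorem mem_Om0 {w R : ℝ} {E : ℝ → Set ℂ} {τ : ℂ} (h : τ ∈ OmR κ R (E R)) :
    τ ∈ OmR κ (w ^ 0 * R) (E (w ^ 0 * R)) := by
  rw [pow_zero, one_mul]
  exact h

theorem ent_univ (hκ : 0 < κ) {x0 : ℝ} (hx : 0 ≤ x0) {Q : ℂ} (hQ : Real.cosh κ < Q.re)
    (hom : ‖om κ Q‖ < Real.exp (-(2 * κ * x0))) {w : ℝ} :
    tQ κ Q ∈ OmR κ (w ^ 0 * Real.exp (-(2 * κ * (x0 + 1)))) Set.univ := by
  rw [pow_zero, one_mul]
  refine ⟨?_, Set.mem_univ _⟩
  have h1 := entry_om hκ (ne_exp_neg hκ hQ) hx hom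
  have h2 : Real.exp (2 * κ) * Real.exp (-(2 * κ * (x0 + 1))) = Real.exp (-(2 * κ * x0)) := by
    rw [← Real.exp_add]
    congr 1
    ring
  rw [h2]
  exact h1

/-- the radii grow with `A` and `R` -/
theorem Xr_mono {B B' R R' : ℝ} (hB : 0 ≤ B) (hBB : B ≤ B') (hR : 0 ≤ R) (hRR : R ≤ R')
    (hR1 : R' < 1) (τ : ℂ) : ‖Xr κ B R τ‖ ≤ ‖Xr κ B' R' τ‖ := by
  unfold Xr
  have h1 : 0 < 1 - R := by linarith
  have h2 : 0 < 1 - R' := by linarith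
  have h3 : 0 ≤ B * R / (1 - R) := div_nonneg (mul_nonneg hB hR) h1.le
  have h4 : B * R / (1 - R) ≤ B' * R' / (1 - R') := by
    apply div_le_div₀ (mul_nonneg (hB.trans hBB) (hR.trans hRR)) _ h2 (by linarith)
    exact mul_le_mul hBB hRR hR (hB.trans hBB)
  rw [norm_mul, norm_mul, Complex.norm_real, Complex.norm_real, Real.norm_of_nonneg h3,
    Real.norm_of_nonneg (h3.trans h4)]
  exact mul_le_mul_of_nonneg_right h4 (norm_nonneg _)

/-- the form used by `rdataF_of_near`: larger `A`, smaller `x0` -/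
theorem Xr_mono' (hκ : 0 < κ) {A A' x x' w : ℝ} (hA : 0 ≤ A) (hAA : A ≤ A') (hx : -1 < x')
    (hxx : x' ≤ x) (τ : ℂ) :
    ‖Xr κ (2 * A * Real.sinh κ ^ 2) (w ^ 0 * Real.exp (-(2 * κ * (x + 1)))) τ‖ ≤
      ‖Xr κ (2 * A' * Real.sinh κ ^ 2) (Real.exp (-(2 * κ * (x' + 1)))) τ‖ := by
  rw [pow_zero, one_mul]
  refine Xr_mono (by positivity) ?_ (Real.exp_pos _).le ?_ ?_ τ
  · apply mul_le_mul_of_nonneg_right _ (sq_nonneg _)
    linarith
  · apply Real.exp_le_exp.2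
    have := mul_le_mul_of_nonneg_left hxx hκ.le
    linarith
  · rw [Real.exp_lt_one_iff]
    have : 0 < 2 * κ * (x' + 1) := by
      have : 0 < x' + 1 := by linarith
      positivity
    linarith

end Pool.Agent.helper72.EQR
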