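import Pool.Agent.helper72.EQR.Symm

/-!
# Near nodes of the corner, half of the arguments

`mid_halfW`, `last_halfW`: `RS.mid_nodeW`, `RS.last_nodeW` for `Q.im ≤ 0` (programs only for `ψ ≤ 101/64`);
`mid_fullW`, `last_fullW`: all `Q`, by conjugation (`YG_symm`, `YLG_symm`).
-/

namespace Pool.Agent.helper72.EQR

open Complex ComplexConjugate Set Filter Topology
open Pool.Agent.helper31.EQ.Y Pool.Agent.helper31.EQ.R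
open Pool.Agent.helper12.RP Pool.Agent.helper12.FF Pool.Agent.helper12.RS
open Pool.Agent.helper63.RG

variable {e κ s B θ τ : ℝ}

theorem phi_le {c φ : ℝ} (hc : 0 < c) (hφ : |φ| < Real.pi / 2) (h : c * Real.sin φ ≤ 0) :
    φ ≤ 0 := by
  by_contra h0
  push Not at h0
  have h1 := (abs_lt.1 hφ).2
  have h2 := Real.sin_pos_of_pos_of_lt_pi h0 (by linarith [Real.pi_pos])
  have := mul_pos hc h2
  linarith

theorem phi_A (he : 0 < e) {m : PtM} {Q : ℂ} (h : MR e κ s B m Q) {φ : ℝ}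
    (hU : m.U = exp (I * (φ : ℂ))) (hφ : |φ| < Real.pi / 2) (hI : Q.im ≤ 0) : φ ≤ 0 := by
  have hse := h.b.se_pos he
  refine phi_le hse hφ ?_
  have h1 : Q.im = s / e * Real.sin φ := by
    rw [h.hQ, h.b.se_eq, hU, add_im, ofReal_im, zero_add, im_ofReal_mul, mul_comm I,
      Complex.exp_ofReal_mul_I_im]
  rw [← h1]
  exact hI

theorem phi_B (he : 0 < e) {m : PtM} {Q : ℂ} (h : MR e κ s B m Q) {u φ : ℝ} (hu : 0 < u)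
    (hU : m.U = (u : ℂ) * exp (I * (φ : ℂ))) (hφ : |φ| < Real.pi / 2) (hI : Q.im ≤ 0) :
    φ ≤ 0 := by
  have hse := h.b.se_pos he
  refine phi_le (mul_pos hse hu) hφ ?_
  have h1 : Q.im = s / e * u * Real.sin φ := by
    rw [h.hQ, h.b.se_eq, hU, add_im, ofReal_im, zero_add, im_ofReal_mul, im_ofReal_mul,
      mul_comm I, Complex.exp_ofReal_mul_I_im, mul_assoc]
  rw [← h1]
  exact hI

/-- **A middle node in the corner.** `A`, `B`: the assertions of the programs in the two charts. -/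
theorem mid_halfW (he : 0 < e) (hκ : 0 < κ) {D : LamT} {t : NF} (ht : t.OK e κ D) {n : ℕ} {b1 s1 : ℝ}
    (hb : e * κ / 2 ≤ b1) {tkf : PtB → ℂ}
    (hτ : ∀ {s B : ℝ} {b : PtB}, BR e κ s B b → tkf b = (τ : ℂ)) (hτ0 : 0 ≤ τ) {ρ : ℝ} {p Q y : ℂ}
    (hρ : ‖om κ Q‖ ≤ ρ) (hI : Q.im ≤ 0)
    (hQ : Real.cosh κ < Q.re) (hT : e * ‖Q - (Real.cosh κ : ℂ)‖ ≤ s1)
    (hy : y = (e : ℂ) * (1 - (Q ^ 2)⁻¹))
    (A : ∀ s m ψ : ℝ, 0 < s → s ≤ s1 → 0 < m → m ≤ 1 → m * s ≤ 2 * b1 → 0 ≤ ψ → ψ ≤ 101 / 64 →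
      e * κ = s * m →
      ‖(bA ((1 / e : ℝ) : ℂ) s m).K - uA ψ‖ ≤ ρ * ‖(bA ((1 / e : ℝ) : ℂ) s m).K + uA ψ‖ →
      ∀ x : ℂ, ‖x‖ ≤ 1 →
      StW (ptM t n (bA ((1 / e : ℝ) : ℂ) s m) (uA ψ) x)
        (mG (ptM t n (bA ((1 / e : ℝ) : ℂ) s m) (uA ψ) x) (tkf (bA ((1 / e : ℝ) : ℂ) s m))) ∧
      ClA (ptM t n (bA ((1 / e : ℝ) : ℂ) s m) (uA ψ) x)
        (ptK t n (bA ((1 / e : ℝ) : ℂ) s m) (uA ψ) x) θ)
    (B : ∀ s m ψ : ℝ, 0 < s → s ≤ b1 → 0 < m → m ≤ 1 → 2 * (m * s) ≤ s1 → 0 ≤ ψ → ψ ≤ 101 / 64 →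
      s = e * κ / 2 →
      ‖(bB ((1 / e : ℝ) : ℂ) s).K - uB m ψ‖ ≤ ρ * ‖(bB ((1 / e : ℝ) : ℂ) s).K + uB m ψ‖ →
      ∀ x : ℂ, ‖x‖ ≤ 1 →
      StW (ptM t n (bB ((1 / e : ℝ) : ℂ) s) (uB m ψ) x)
        (mG (ptM t n (bB ((1 / e : ℝ) : ℂ) s) (uB m ψ) x) (tkf (bB ((1 / e : ℝ) : ℂ) s))) ∧
      ClA (ptM t n (bB ((1 / e : ℝ) : ℂ) s) (uB m ψ) x)
        (ptK t n (bB ((1 / e : ℝ) : ℂ) s) (uB m ψ) x) θ) :
    YG e κ θ τ ((D.toN e κ).l n p y)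
      ((D.toN e κ).r n p y) ((D.toN e κ).M n p y)
      (fun x => Sn e κ y ((D.toN e κ).l n p y)
        ((D.toN e κ).r n p y * x)) Q
      ((D.toN e κ).l (n + 1) p) ((D.toN e κ).r (n + 1) p) := by
  have hpi : Real.pi / 2 ≤ 101 / 64 := by
    have := Real.pi_lt_d2
    linarith
  rcases le_total κ ‖Q - (Real.cosh κ : ℂ)‖ with hc | hc
  · -- chart A
    obtain ⟨s, B', φ, h1, h2, h3, h4, h5⟩ := chartA he hκ hQ
    have hs : 0 < s := by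
      rw [h1]
      exact mul_pos he (hκ.trans_le hc)
    have hsB : s * B' ≤ s * (1 / 2) := by
      rw [h2, h1]
      have := mul_le_mul_of_nonneg_left hc he.le
      linarith
    have hB : B' ≤ 1 / 2 := le_of_mul_le_mul_left hsB hs
    have h4' := abs_lt.1 h4
    obtain ⟨b, hb'⟩ : ∃ b, b = bA ((1 / e : ℝ) : ℂ) (s : ℂ) ((2 * B' : ℝ) : ℂ) := ⟨_, rfl⟩
    obtain ⟨U, hU⟩ : ∃ U, U = uA ((φ + 101 / 64 : ℝ) : ℂ) := ⟨_, rfl⟩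
    have hbB : b.B = (B' : ℂ) := by
      rw [hb']
      show (((1 / 2) : ℂ) * ((2 * B' : ℝ) : ℂ)) = _
      push_cast
      ring
    have hUe : U = exp (I * (φ : ℂ)) := by
      rw [hU]
      unfold uA
      congr 1
      push_cast
      ring
    have hMR : ∀ x : ℂ, MR e κ s B' ⟨⟨b, t.Lf n b U, t.Rf n b U, x⟩, U⟩ Q := fun x =>
      h5 b U (by rw [hb']; rfl) (by rw [hb']; rfl) hbB hUe _ _ x
    have hbr := (hMR 0).b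
    have hφ : φ ≤ 0 := phi_A he (hMR 0) hUe h4 hI
    refine yG_of he hy (b := b) (U := U) (L := t.Lf n b U) (R := t.Rf n b U) (M := t.Mf n b U)
      (Lf := fun U' => t.Lf (n + 1) b U') (Rf := fun U' => t.Rf (n + 1) b U') hMR
      (ht.l hbr n p U) (ht.r hbr n p U) (ht.M hbr n p U)
      (fun U' => ht.l hbr (n + 1) p U') (fun U' => ht.r hbr (n + 1) p U')
      (hτ hbr) hτ0 ?_
    intro x hx
    have hA := A s (2 * B') (φ + 101 / 64) hs (by rw [h1]; exact hT) (by linarith) (by linarith)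
      (by nlinarith) (by linarith [h4'.1]) (by linarith) (by linarith)
    rw [← hb', ← hU] at hA
    exact hA (om_prem he (hMR x) hρ) x hx
  · -- chart B
    obtain ⟨u, φ, h1, h2, h4, h5⟩ := chartB he hκ hQ
    have hs : 0 < e * κ / 2 := by positivity
    have hu : u ≤ 2 := by
      have h6 : (e * κ / 2) * u ≤ (e * κ / 2) * 2 := by
        rw [h1]
        have := mul_le_mul_of_nonneg_left hc he.le
        linarith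
      exact le_of_mul_le_mul_left h6 hs
    have h4' := abs_lt.1 h4
    obtain ⟨b, hb'⟩ : ∃ b, b = bB ((1 / e : ℝ) : ℂ) ((e * κ / 2 : ℝ) : ℂ) := ⟨_, rfl⟩
    obtain ⟨U, hU⟩ : ∃ U, U = uB ((u / 2 : ℝ) : ℂ) ((φ + 101 / 64 : ℝ) : ℂ) := ⟨_, rfl⟩
    have hUe : U = (u : ℂ) * exp (I * (φ : ℂ)) := by
      rw [hU]
      unfold uB
      have e1 : (2 : ℂ) * ((u / 2 : ℝ) : ℂ) = (u : ℂ) := by
        push_cast
        ring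
      rw [e1]
      congr 2
      push_cast
      ring
    have hMR : ∀ x : ℂ, MR e κ (e * κ / 2) 1 ⟨⟨b, t.Lf n b U, t.Rf n b U, x⟩, U⟩ Q := fun x =>
      h5 b U (by rw [hb']; rfl) (by rw [hb']; rfl) (by rw [hb']; rfl) hUe _ _ x
    have hbr := (hMR 0).b
    have hφ : φ ≤ 0 := phi_B he (hMR 0) h2 hUe h4 hI
    refine yG_of he hy (b := b) (U := U) (L := t.Lf n b U) (R := t.Rf n b U) (M := t.Mf n b U)
      (Lf := fun U' => t.Lf (n + 1) b U') (Rf := fun U' => t.Rf (n + 1) b U') hMR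
      (ht.l hbr n p U) (ht.r hbr n p U) (ht.M hbr n p U)
      (fun U' => ht.l hbr (n + 1) p U') (fun U' => ht.r hbr (n + 1) p U')
      (hτ hbr) hτ0 ?_
    intro x hx
    have hB := B (e * κ / 2) (u / 2) (φ + 101 / 64) hs hb (by linarith) (by linarith)
      (by linarith) (by linarith [h4'.1]) (by linarith) rfl
    rw [← hb', ← hU] at hB
    exact hB (om_prem he (hMR x) hρ) x hx

/-- **The last near node in the corner.** -/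
theorem last_halfW (he : 0 < e) (hκ : 0 < κ) {D : LamT} {t : NF} (ht : t.OK e κ D) {n : ℕ} {b1 s1 : ℝ}
    (hb : e * κ / 2 ≤ b1) {tkf : PtB → ℂ}
    (hτ : ∀ {s B : ℝ} {b : PtB}, BR e κ s B b → tkf b = (τ : ℂ)) (hτ0 : 0 ≤ τ) {ρ : ℝ} {p Q y : ℂ}
    (hρ : ‖om κ Q‖ ≤ ρ) (hI : Q.im ≤ 0)
    (hQ : Real.cosh κ < Q.re) (hT : e * ‖Q - (Real.cosh κ : ℂ)‖ ≤ s1)
    (hy : y = (e : ℂ) * (1 - (Q ^ 2)⁻¹)) {Ae xa C2 : ℂ} {A' x0 B1 a0 c2 : ℝ}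
    (hA0 : 0 ≤ A') (hAe : Ae = ((A' / e : ℝ) : ℂ)) (hxa : xa = (a0 : ℂ))
    (ha0 : 0 ≤ a0) (hax : a0 ≤ x0) (hC2 : C2 = (c2 : ℂ)) (hB1 : B1 < x0 + 2)
    (hc2 : (1 + 1 / (2 * (x0 + 2))) / (1 - B1 / (x0 + 2)) ≤ c2)
    (A : ∀ s m ψ : ℝ, 0 < s → s ≤ s1 → 0 < m → m ≤ 1 → m * s ≤ 2 * b1 → 0 ≤ ψ → ψ ≤ 101 / 64 →
      e * κ = s * m →
      ‖(bA ((1 / e : ℝ) : ℂ) s m).K - uA ψ‖ ≤ ρ * ‖(bA ((1 / e : ℝ) : ℂ) s m).K + uA ψ‖ →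
      ∀ x : ℂ, ‖x‖ ≤ 1 →
      StW (ptM t n (bA ((1 / e : ℝ) : ℂ) s m) (uA ψ) x)
        (mG (ptM t n (bA ((1 / e : ℝ) : ℂ) s m) (uA ψ) x) (tkf (bA ((1 / e : ℝ) : ℂ) s m))) ∧
      ClL (ptM t n (bA ((1 / e : ℝ) : ℂ) s m) (uA ψ) x)
        (fun F2 => ptL t n (bA ((1 / e : ℝ) : ℂ) s m) (uA ψ) x Ae xa C2 F2) B1 θ)
    (B : ∀ s m ψ : ℝ, 0 < s → s ≤ b1 → 0 < m → m ≤ 1 → 2 * (m * s) ≤ s1 → 0 ≤ ψ → ψ ≤ 101 / 64 →
      s = e * κ / 2 →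
      ‖(bB ((1 / e : ℝ) : ℂ) s).K - uB m ψ‖ ≤ ρ * ‖(bB ((1 / e : ℝ) : ℂ) s).K + uB m ψ‖ →
      ∀ x : ℂ, ‖x‖ ≤ 1 →
      StW (ptM t n (bB ((1 / e : ℝ) : ℂ) s) (uB m ψ) x)
        (mG (ptM t n (bB ((1 / e : ℝ) : ℂ) s) (uB m ψ) x) (tkf (bB ((1 / e : ℝ) : ℂ) s))) ∧
      ClL (ptM t n (bB ((1 / e : ℝ) : ℂ) s) (uB m ψ) x)
        (fun F2 => ptL t n (bB ((1 / e : ℝ) : ℂ) s) (uB m ψ) x Ae xa C2 F2) B1 θ) :
    YLG e κ θ τ A' x0 B1 ((D.toN e κ).l n p y)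
      ((D.toN e κ).r n p y) ((D.toN e κ).M n p y)
      (fun x => Sn e κ y ((D.toN e κ).l n p y)
        ((D.toN e κ).r n p y * x)) Q := by
  have hpi : Real.pi / 2 ≤ 101 / 64 := by
    have := Real.pi_lt_d2
    linarith
  rcases le_total κ ‖Q - (Real.cosh κ : ℂ)‖ with hc | hc
  · -- chart A
    obtain ⟨s, B', φ, h1, h2, h3, h4, h5⟩ := chartA he hκ hQ
    have hs : 0 < s := by
      rw [h1]
      exact mul_pos he (hκ.trans_le hc)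
    have hsB : s * B' ≤ s * (1 / 2) := by
      rw [h2, h1]
      have := mul_le_mul_of_nonneg_left hc he.le
      linarith
    have hB : B' ≤ 1 / 2 := le_of_mul_le_mul_left hsB hs
    have h4' := abs_lt.1 h4
    obtain ⟨b, hb'⟩ : ∃ b, b = bA ((1 / e : ℝ) : ℂ) (s : ℂ) ((2 * B' : ℝ) : ℂ) := ⟨_, rfl⟩
    obtain ⟨U, hU⟩ : ∃ U, U = uA ((φ + 101 / 64 : ℝ) : ℂ) := ⟨_, rfl⟩
    have hbB : b.B = (B' : ℂ) := by
      rw [hb']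
      show (((1 / 2) : ℂ) * ((2 * B' : ℝ) : ℂ)) = _
      push_cast
      ring
    have hUe : U = exp (I * (φ : ℂ)) := by
      rw [hU]
      unfold uA
      congr 1
      push_cast
      ring
    have hMR : ∀ x : ℂ, MR e κ s B' ⟨⟨b, t.Lf n b U, t.Rf n b U, x⟩, U⟩ Q := fun x =>
      h5 b U (by rw [hb']; rfl) (by rw [hb']; rfl) hbB hUe _ _ x
    have hbr := (hMR 0).b
    have hφ : φ ≤ 0 := phi_A he (hMR 0) hUe h4 hI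
    refine yLG_of he hy (b := b) (U := U) (L := t.Lf n b U) (R := t.Rf n b U) (M := t.Mf n b U)
      hMR (ht.l hbr n p U) (ht.r hbr n p U) (ht.M hbr n p U)
      hA0 hAe hxa ha0 hax hC2 hB1 hc2 (hτ hbr) hτ0 ?_
    intro x hx
    have hA := A s (2 * B') (φ + 101 / 64) hs (by rw [h1]; exact hT) (by linarith) (by linarith)
      (by nlinarith) (by linarith [h4'.1]) (by linarith) (by linarith)
    rw [← hb', ← hU] at hA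
    exact hA (om_prem he (hMR x) hρ) x hx
  · -- chart B
    obtain ⟨u, φ, h1, h2, h4, h5⟩ := chartB he hκ hQ
    have hs : 0 < e * κ / 2 := by positivity
    have hu : u ≤ 2 := by
      have h6 : (e * κ / 2) * u ≤ (e * κ / 2) * 2 := by
        rw [h1]
        have := mul_le_mul_of_nonneg_left hc he.le
        linarith
      exact le_of_mul_le_mul_left h6 hs
    have h4' := abs_lt.1 h4
    obtain ⟨b, hb'⟩ : ∃ b, b = bB ((1 / e : ℝ) : ℂ) ((e * κ / 2 : ℝ) : ℂ) := ⟨_, rfl⟩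
    obtain ⟨U, hU⟩ : ∃ U, U = uB ((u / 2 : ℝ) : ℂ) ((φ + 101 / 64 : ℝ) : ℂ) := ⟨_, rfl⟩
    have hUe : U = (u : ℂ) * exp (I * (φ : ℂ)) := by
      rw [hU]
      unfold uB
      have e1 : (2 : ℂ) * ((u / 2 : ℝ) : ℂ) = (u : ℂ) := by
        push_cast
        ring
      rw [e1]
      congr 2
      push_cast
      ring
    have hMR : ∀ x : ℂ, MR e κ (e * κ / 2) 1 ⟨⟨b, t.Lf n b U, t.Rf n b U, x⟩, U⟩ Q := fun x =>
      h5 b U (by rw [hb']; rfl) (by rw [hb']; rfl) (by rw [hb']; rfl) hUe _ _ x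
    have hbr := (hMR 0).b
    have hφ : φ ≤ 0 := phi_B he (hMR 0) h2 hUe h4 hI
    refine yLG_of he hy (b := b) (U := U) (L := t.Lf n b U) (R := t.Rf n b U) (M := t.Mf n b U)
      hMR (ht.l hbr n p U) (ht.r hbr n p U) (ht.M hbr n p U)
      hA0 hAe hxa ha0 hax hC2 hB1 hc2 (hτ hbr) hτ0 ?_
    intro x hx
    have hB := B (e * κ / 2) (u / 2) (φ + 101 / 64) hs hb (by linarith) (by linarith)
      (by linarith) (by linarith [h4'.1]) (by linarith) rfl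
    rw [← hb', ← hU] at hB
    exact hB (om_prem he (hMR x) hρ) x hx


theorem conj_facts {Q y : ℂ} (hy : y = (e : ℂ) * (1 - (Q ^ 2)⁻¹)) :
    conj y = (e : ℂ) * (1 - ((conj Q) ^ 2)⁻¹) := by
  rw [hy, map_mul, conj_ofReal, map_sub, map_one, map_inv₀, map_pow]

theorem norm_conj_sub (c : ℝ) (Q : ℂ) : ‖conj Q - (c : ℂ)‖ = ‖Q - (c : ℂ)‖ := by
  have : conj Q - (c : ℂ) = conj (Q - (c : ℂ)) := by rw [map_sub, conj_ofReal]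
  rw [this, norm_conj]

/-- **A middle node in the corner, all arguments.** `A`, `B`: the assertions of the programs in the two charts. -/
theorem mid_fullW (he : 0 < e) (hκ : 0 < κ) {t : Tb} (ht : t.IsReal) {n : ℕ} {b1 s1 : ℝ}
    (hb : e * κ / 2 ≤ b1) {tkf : PtB → ℂ}
    (hτ : ∀ {s B : ℝ} {b : PtB}, BR e κ s B b → tkf b = (τ : ℂ)) (hτ0 : 0 ≤ τ) {ρ : ℝ} {p Q y : ℂ}
    (hρ : ‖om κ Q‖ ≤ ρ)
    (hQ : Real.cosh κ < Q.re) (hT : e * ‖Q - (Real.cosh κ : ℂ)‖ ≤ s1)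
    (hy : y = (e : ℂ) * (1 - (Q ^ 2)⁻¹))
    (A : ∀ s m ψ : ℝ, 0 < s → s ≤ s1 → 0 < m → m ≤ 1 → m * s ≤ 2 * b1 → 0 ≤ ψ → ψ ≤ 101 / 64 →
      e * κ = s * m →
      ‖(bA ((1 / e : ℝ) : ℂ) s m).K - uA ψ‖ ≤ ρ * ‖(bA ((1 / e : ℝ) : ℂ) s m).K + uA ψ‖ →
      ∀ x : ℂ, ‖x‖ ≤ 1 →
      StW (ptM t.nf n (bA ((1 / e : ℝ) : ℂ) s m) (uA ψ) x)
        (mG (ptM t.nf n (bA ((1 / e : ℝ) : ℂ) s m) (uA ψ) x) (tkf (bA ((1 / e : ℝ) : ℂ) s m))) ∧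
      ClA (ptM t.nf n (bA ((1 / e : ℝ) : ℂ) s m) (uA ψ) x)
        (ptK t.nf n (bA ((1 / e : ℝ) : ℂ) s m) (uA ψ) x) θ)
    (B : ∀ s m ψ : ℝ, 0 < s → s ≤ b1 → 0 < m → m ≤ 1 → 2 * (m * s) ≤ s1 → 0 ≤ ψ → ψ ≤ 101 / 64 →
      s = e * κ / 2 →
      ‖(bB ((1 / e : ℝ) : ℂ) s).K - uB m ψ‖ ≤ ρ * ‖(bB ((1 / e : ℝ) : ℂ) s).K + uB m ψ‖ →
      ∀ x : ℂ, ‖x‖ ≤ 1 →
      StW (ptM t.nf n (bB ((1 / e : ℝ) : ℂ) s) (uB m ψ) x)
        (mG (ptM t.nf n (bB ((1 / e : ℝ) : ℂ) s) (uB m ψ) x) (tkf (bB ((1 / e : ℝ) : ℂ) s))) ∧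
      ClA (ptM t.nf n (bB ((1 / e : ℝ) : ℂ) s) (uB m ψ) x)
        (ptK t.nf n (bB ((1 / e : ℝ) : ℂ) s) (uB m ψ) x) θ) :
    YG e κ θ τ (((t.lamT ht e κ).toN e κ).l n p y)
      (((t.lamT ht e κ).toN e κ).r n p y) (((t.lamT ht e κ).toN e κ).M n p y)
      (fun x => Sn e κ y (((t.lamT ht e κ).toN e κ).l n p y)
        (((t.lamT ht e κ).toN e κ).r n p y * x)) Q
      (((t.lamT ht e κ).toN e κ).l (n + 1) p) (((t.lamT ht e κ).toN e κ).r (n + 1) p) := by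
  rcases le_total Q.im 0 with hI | hI
  · exact mid_halfW he hκ (Tb.nf_ok he ht) hb hτ hτ0 hρ hI hQ hT hy A B
  · have hQ' : Real.cosh κ < (conj Q).re := by rwa [conj_re]
    have hI' : (conj Q).im ≤ 0 := by rw [conj_im]; linarith
    have hρ' : ‖om κ (conj Q)‖ ≤ ρ := by rwa [om_conj, norm_conj]
    have hT' : e * ‖conj Q - (Real.cosh κ : ℂ)‖ ≤ s1 := by rwa [norm_conj_sub]
    exact YG_symm ht he hQ hy (mid_halfW he hκ (Tb.nf_ok he ht) hb hτ hτ0 hρ' hI' hQ' hT'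
      (conj_facts hy) A B)

/-- **The last near node in the corner, all arguments.** -/
theorem last_fullW (he2 : 2 ≤ e) (hκ : 0 < κ) {t : Tb} (ht : t.IsReal) {n : ℕ} {b1 s1 : ℝ}
    (hb : e * κ / 2 ≤ b1) {tkf : PtB → ℂ}
    (hτ : ∀ {s B : ℝ} {b : PtB}, BR e κ s B b → tkf b = (τ : ℂ)) (hτ0 : 0 ≤ τ) {ρ : ℝ} {p Q y : ℂ}
    (hρ : ‖om κ Q‖ ≤ ρ)
    (hQ : Real.cosh κ < Q.re) (hT : e * ‖Q - (Real.cosh κ : ℂ)‖ ≤ s1)
    (hy : y = (e : ℂ) * (1 - (Q ^ 2)⁻¹)) {Ae xa C2 : ℂ} {A' x0 B1 a0 c2 : ℝ}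
    (hA0 : 0 ≤ A') (hAe : Ae = ((A' / e : ℝ) : ℂ)) (hxa : xa = (a0 : ℂ))
    (ha0 : 0 ≤ a0) (hax : a0 ≤ x0) (hC2 : C2 = (c2 : ℂ)) (hB1 : B1 < x0 + 2)
    (hc2 : (1 + 1 / (2 * (x0 + 2))) / (1 - B1 / (x0 + 2)) ≤ c2)
    (A : ∀ s m ψ : ℝ, 0 < s → s ≤ s1 → 0 < m → m ≤ 1 → m * s ≤ 2 * b1 → 0 ≤ ψ → ψ ≤ 101 / 64 →
      e * κ = s * m →
      ‖(bA ((1 / e : ℝ) : ℂ) s m).K - uA ψ‖ ≤ ρ * ‖(bA ((1 / e : ℝ) : ℂ) s m).K + uA ψ‖ →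
      ∀ x : ℂ, ‖x‖ ≤ 1 →
      StW (ptM t.nf n (bA ((1 / e : ℝ) : ℂ) s m) (uA ψ) x)
        (mG (ptM t.nf n (bA ((1 / e : ℝ) : ℂ) s m) (uA ψ) x) (tkf (bA ((1 / e : ℝ) : ℂ) s m))) ∧
      ClL (ptM t.nf n (bA ((1 / e : ℝ) : ℂ) s m) (uA ψ) x)
        (fun F2 => ptL t.nf n (bA ((1 / e : ℝ) : ℂ) s m) (uA ψ) x Ae xa C2 F2) B1 θ)
    (B : ∀ s m ψ : ℝ, 0 < s → s ≤ b1 → 0 < m → m ≤ 1 → 2 * (m * s) ≤ s1 → 0 ≤ ψ → ψ ≤ 101 / 64 →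
      s = e * κ / 2 →
      ‖(bB ((1 / e : ℝ) : ℂ) s).K - uB m ψ‖ ≤ ρ * ‖(bB ((1 / e : ℝ) : ℂ) s).K + uB m ψ‖ →
      ∀ x : ℂ, ‖x‖ ≤ 1 →
      StW (ptM t.nf n (bB ((1 / e : ℝ) : ℂ) s) (uB m ψ) x)
        (mG (ptM t.nf n (bB ((1 / e : ℝ) : ℂ) s) (uB m ψ) x) (tkf (bB ((1 / e : ℝ) : ℂ) s))) ∧
      ClL (ptM t.nf n (bB ((1 / e : ℝ) : ℂ) s) (uB m ψ) x)
        (fun F2 => ptL t.nf n (bB ((1 / e : ℝ) : ℂ) s) (uB m ψ) x Ae xa C2 F2) B1 θ) :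
    YLG e κ θ τ A' x0 B1 (((t.lamT ht e κ).toN e κ).l n p y)
      (((t.lamT ht e κ).toN e κ).r n p y) (((t.lamT ht e κ).toN e κ).M n p y)
      (fun x => Sn e κ y (((t.lamT ht e κ).toN e κ).l n p y)
        (((t.lamT ht e κ).toN e κ).r n p y * x)) Q := by
  have he : 0 < e := by linarith
  rcases le_total Q.im 0 with hI | hI
  · exact last_halfW he hκ (Tb.nf_ok he ht) hb hτ hτ0 hρ hI hQ hT hy hA0 hAe hxa ha0 hax hC2 hB1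
      hc2 A B
  · have hQ' : Real.cosh κ < (conj Q).re := by rwa [conj_re]
    have hI' : (conj Q).im ≤ 0 := by rw [conj_im]; linarith
    have hρ' : ‖om κ (conj Q)‖ ≤ ρ := by rwa [om_conj, norm_conj]
    have hT' : e * ‖conj Q - (Real.cosh κ : ℂ)‖ ≤ s1 := by rwa [norm_conj_sub]
    exact YLG_symm ht he2 hQ hy (last_halfW he hκ (Tb.nf_ok he ht) hb hτ hτ0 hρ' hI' hQ' hT'
      (conj_facts hy) hA0 hAe hxa ha0 hax hC2 hB1 hc2 A B)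

end Pool.Agent.helper72.EQR
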